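import Pool.Agent.U393.IT.Basic
import Pool.Agent.Y297.NT.Pull
import Pool.Agent.Y71.NT.Abh

/-!
Pull-backs of pluricanonical forms to a base change.
-/

set_option autoImplicit false
set_option linter.overlappingInstances false
set_option linter.unusedSectionVars false

open FF Pool.Agent.W602.GT Pool.Agent.W603.LV Pool.Agent.W619.PQ
open Pool.Agent.Y174 (PairSec PairKod resPl)

namespace Pool.Agent.U393.IT

theorem sec_reg {k K : Type} [Field k] [Field K] [Algebra k K] {n m : ℕ}
    {ω : (Fin n → Derivation k K K) → K} (hω : PairSec k K n (fun _ => 0) {1} m 0 ω) :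
    ∀ P : Place k K, Divisorial n P → RegAt P ω := by
  intro P hP G hG
  rcases hω.2 P hP G hG with h0 | ⟨s, hs, hs0, hle⟩
  · exact Or.inl h0
  · right
    rw [Nat.cast_zero, zero_mul, mul_zero, sub_zero] at hle
    exact_mod_cast hle

/-- **Pull-backs of regular pluricanonical forms are regular.** -/
theorem pull_m (E R : Type) [Field E] [Field R] [Algebra ℂ E] [Algebra ℂ R] [Algebra E R]
    [IsScalarTower ℂ E R] [Algebra.EssFiniteType ℂ E] (n N m : ℕ) (hn : Algebra.trdeg ℂ E = n)
    (hN : Algebra.trdeg ℂ R = N) (z : Fin n → E) (hz : IsTranscendenceBasis ℂ z)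
    (EE : Fin n → Derivation ℂ E E) (hE : ∀ i j, EE i (z j) = if i = j then 1 else 0)
    (ω : (Fin n → Derivation ℂ E E) → E) (hω : IsPluri m ω)
    (hreg : ∀ P : Place ℂ E, Divisorial n P → RegAt P ω)
    (Q : Place ℂ R) (hQ : Divisorial N Q) (D : Fin n → Derivation ℂ R R)
    (hD : ∀ i, DerReg Q (D i)) :
    Q.Reg ((Matrix.of fun i j => D i (algebraMap E R (z j)) : Matrix (Fin n) (Fin n) R).det ^ m *
      algebraMap E R (ω EE)) := by
  classical
  have hpow : ∀ x : R, Q.Reg x → Q.Reg (x ^ m) := by
    intro x hx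
    have h1 : Ge Q 0 x := hx
    have h2 := h1.pow m
    rw [mul_zero] at h2
    exact h2
  by_cases htriv : ∃ f : E, Q.ord (algebraMap E R f) ≠ 0
  · obtain ⟨e, P, hP⟩ := exists_over Q htriv
    have hPd : Divisorial n P := Pool.Agent.Y71.NT.t_abh E R n N hn hN Q P e hP hQ
    obtain ⟨yP, EP, i0, hbas, hdual, -, hyreg, hpres⟩ :=
      Pool.Agent.W240.PG.Frame.main.{0, 0} Pool.Agent.W762.PG.main ℂ E n hn
        (fun y hy => Pool.Agent.Y297.NT.fd_basis hy) P hPd
    have h1 := Pool.Agent.W73.PG.PULL.form_eq (L := R) z yP hz hbas EE EP hE hdual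
      (m := m) ω hω D
    rw [h1]
    refine Q.reg_mul (hpow _ ?_) ?_
    · have h9 : Ge Q 0 (Matrix.of fun a c => D a (algebraMap E R (yP c)) :
          Matrix (Fin n) (Fin n) R).det :=
        Pool.Agent.W619.PQ.ge_det Q _ fun a b => hD a _ (hP.reg.2 (hyreg b))
      exact h9
    · exact hP.reg.2 (hreg P hPd EP hpres)
  · push Not at htriv
    have h0 : ∀ f : E, Q.Reg (algebraMap E R f) := fun f => Or.inr (htriv f).ge
    refine Q.reg_mul (hpow _ ?_) (h0 _)
    have h9 : Ge Q 0 (Matrix.of fun i j => D i (algebraMap E R (z j)) :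
        Matrix (Fin n) (Fin n) R).det :=
      Pool.Agent.W619.PQ.ge_det Q _ fun a b => hD a _ (h0 _)
    exact h9

section

variable {E k' M : Type} [Field E] [Field k'] [Field M] [Algebra ℂ E] [Algebra ℂ k']
  [Algebra ℂ M] [Algebra E M] [Algebra k' M] [IsScalarTower ℂ E M] [IsScalarTower ℂ k' M]

/-- Transcendence bases after a base change. -/
theorem basis_up {e : ℕ} {ι : Type} [Finite ι] {t : ι → E} (ht : IsTranscendenceBasis ℂ t)
    (hE : Algebra.trdeg ℂ E = e) (hM : Algebra.trdeg k' M = e)
    (halg : Algebra.IsAlgebraic (IntermediateField.adjoin k' (Set.range (algebraMap E M))) M) :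
    IsTranscendenceBasis k' (algebraMap E M ∘ t) := by
  classical
  obtain ⟨A, hA⟩ : ∃ A : IntermediateField k' M,
    A = IntermediateField.adjoin k' (Set.range (algebraMap E M ∘ t)) := ⟨_, rfl⟩
  have hmem : ∀ z ∈ IntermediateField.adjoin ℂ (Set.range t), algebraMap E M z ∈ A := by
    have h1 : IntermediateField.adjoin ℂ (Set.range t) ≤
        (A.restrictScalars ℂ).comap (IsScalarTower.toAlgHom ℂ E M) := by
      rw [IntermediateField.adjoin_le_iff]
      rintro _ ⟨i, rfl⟩
      change algebraMap E M (t i) ∈ A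
      rw [hA]
      exact IntermediateField.subset_adjoin _ _ ⟨i, rfl⟩
    exact fun z hz => h1 hz
  have halgA : ∀ z : E, IsAlgebraic A (algebraMap E M z) := by
    intro z
    have h1 : Algebra.IsAlgebraic (IntermediateField.adjoin ℂ (Set.range t)) E :=
      ht.isAlgebraic_field
    obtain ⟨φ, hφ⟩ : ∃ φ : IntermediateField.adjoin ℂ (Set.range t) →+* A,
        ∀ z, (φ z : M) = algebraMap E M z :=
      ⟨((algebraMap E M).comp (IntermediateField.adjoin ℂ (Set.range t)).val.toRingHom).codRestrict
        A (fun z => hmem z z.2), fun z => rfl⟩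
    exact (h1.isAlgebraic z).ringHom_of_comp_eq φ (algebraMap E M) φ.injective (by
      ext z
      exact hφ z)
  have hMA : Algebra.IsAlgebraic A M := by
    have h1 : IntermediateField.adjoin k' (Set.range (algebraMap E M)) ≤
        (algebraicClosure A M).restrictScalars k' := by
      rw [IntermediateField.adjoin_le_iff]
      rintro _ ⟨z, rfl⟩
      exact mem_algebraicClosure_iff'.2 (halgA z).isIntegral
    have h2 : Algebra.IsAlgebraic (algebraicClosure A M) M := by
      constructor
      intro z
      obtain ⟨φ, hφ⟩ : ∃ φ : IntermediateField.adjoin k' (Set.range (algebraMap E M)) →+*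
          algebraicClosure A M, ∀ z, (φ z : M) = z :=
        ⟨(IntermediateField.adjoin k' (Set.range (algebraMap E M))).val.toRingHom.codRestrict
          (algebraicClosure A M) (fun z => h1 z.2), fun z => rfl⟩
      exact (halg.isAlgebraic z).ringHom_of_comp_eq φ (RingHom.id M) φ.injective (by
        ext z
        exact hφ z)
    exact Algebra.IsAlgebraic.trans A (algebraicClosure A M) M
  have h1 : Algebra.IsAlgebraic (Algebra.adjoin k' (Set.range (algebraMap E M ∘ t))) M := by
    rw [hA] at hMA
    exact Pool.Agent.W619.PQ.alg_adjoin fun z => hMA.isAlgebraic z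
  refine Algebra.IsAlgebraic.isTranscendenceBasis_of_le_trdeg_of_finite k' _ ?_
  rw [hM, ← hE, ← ht.cardinalMk_eq_trdeg]

/-- **Base change for pluricanonical forms.** -/
theorem base_up [Algebra.EssFiniteType ℂ E] [Algebra.EssFiniteType ℂ M] {e g p : ℕ}
    (hE : Algebra.trdeg ℂ E = e) (hk : Algebra.trdeg ℂ k' = g) (hM : Algebra.trdeg k' M = e)
    (halg : Algebra.IsAlgebraic (IntermediateField.adjoin k' (Set.range (algebraMap E M))) M)
    (hp : PairKod ℂ E e (fun _ => 0) p) : PairKod k' M e (fun _ => 0) p := by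
  classical
  have hn : Algebra.trdeg ℂ M = (g + e : ℕ) := by
    have h1 := trdeg_add_eq ℂ k' (A := M)
    rw [hk, hM] at h1
    rw [← h1]
    push_cast
    rfl
  have hk0 : CharZero k' := charZero_of_injective_algebraMap (algebraMap ℂ k').injective
  rcases e with _ | r
  · have h1 := Pool.Agent.R882.UA.kod_le_dim hE (kd_iff.2 hp)
    have h2 : p = 0 := by omega
    rw [h2]
    exact kd_point
  obtain ⟨m, hm, ω, hω, D, hD, hind⟩ := hp
  obtain ⟨y, hy⟩ := Pool.Agent.W636.PG.exists_basis ℂ E (r + 1) hE
  obtain ⟨EE, hEE⟩ := Pool.Agent.W636.PG.exists_duals ℂ E (r + 1) y hy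
  have hyM : IsTranscendenceBasis k' (algebraMap E M ∘ y) := basis_up hy hE hM halg
  obtain ⟨E', hE'⟩ := Pool.Agent.W636.PG.exists_duals k' M (r + 1) _ hyM
  obtain ⟨t, ht⟩ := Pool.Agent.W636.PG.exists_basis ℂ k' g hk
  have hval : ∀ l, ω l D = (Matrix.of fun i j => D i (y j)).det ^ m * ω l EE := fun l =>
    Pool.Agent.W636.PG.form_eq ℂ E (r + 1) m y hy EE hEE (ω l) (hω l).1 D
  have hdet0 : (Matrix.of fun i j => D i (y j)).det ^ m ≠ 0 := by
    intro h0
    apply hD 0
    rw [hval, h0, zero_mul]
  have hE0 : ∀ l, ω l EE ≠ 0 := by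
    intro l h0
    apply hD l
    rw [hval, h0, mul_zero]
  have hdet : (Matrix.of fun a b => E' a (algebraMap E M (y b))).det = 1 := by
    have h1 : (Matrix.of fun a b => E' a (algebraMap E M (y b))) = 1 := by
      ext a b
      rw [Matrix.of_apply, Matrix.one_apply]
      exact hE' a b
    rw [h1, Matrix.det_one]
  -- algebraic independence
  have hindM : AlgebraicIndependent k' fun l : Fin p => algebraMap E M (ω l.succ D / ω 0 D) := by
    obtain ⟨B, hzB, hB⟩ := exists_isTranscendenceBasis_superset (R := ℂ)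
      (s := Set.range fun l : Fin p => ω l.succ D / ω 0 D) hind.to_subtype_range
    have hfin : Finite B := by
      have h1 := hB.cardinalMk_eq_trdeg
      rw [hE] at h1
      exact Cardinal.mk_lt_aleph0_iff.1 (by rw [h1]; exact Cardinal.natCast_lt_aleph0)
    have h1 := basis_up hB hE hM halg
    have h2 : (fun l : Fin p => algebraMap E M (ω l.succ D / ω 0 D)) =
        (algebraMap E M ∘ fun z : B => (z : E)) ∘
          fun l : Fin p => (⟨ω l.succ D / ω 0 D, hzB ⟨l, rfl⟩⟩ : B) := rfl
    rw [h2]
    refine h1.1.comp _ fun a b hab => ?_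
    exact hind.injective (congrArg Subtype.val hab)
  have hsec : ∀ l, PairSec k' M (r + 1) (fun _ => 0) {1} m 0 (fun D =>
      (Matrix.of fun a b => D a (algebraMap E M (y b))).det ^ m * algebraMap E M (ω l EE)) := by
    intro l
    refine ⟨?_, fun w hw G hG => ?_⟩
    · intro A D
      have e : (Matrix.of fun a b => (∑ j, A a j • D j) (algebraMap E M (y b))) =
          A * Matrix.of fun a b => D a (algebraMap E M (y b)) := by
        ext a b
        rw [Matrix.of_apply, Matrix.mul_apply, Pool.Agent.W721.PG.EFF2.der_sum]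
        rfl
      change (Matrix.of fun a b => (∑ j, A a j • D j) (algebraMap E M (y b))).det ^ m * _ = _
      rw [e, Matrix.det_mul, mul_pow, mul_assoc]
    · obtain ⟨hdiv, -⟩ := Pool.Agent.Y174.exists_frame_fib (k := ℂ) (L := k') (K := M)
        inferInstance hn ht.1 hw
      have h1 := pull_m E M (r + 1) (g + (r + 1)) m hE hn y hy EE hEE (ω l) (hω l).1
        (sec_reg (hω l)) (resPl ℂ w) hdiv (fun i => (G i).restrictScalars ℂ)
        (fun i f hf => hG i f hf)
      rcases h1 with h1 | h1
      · exact Or.inl h1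
      · refine Or.inr ⟨1, Finset.mem_singleton_self _, one_ne_zero, ?_⟩
        rw [Nat.cast_zero, zero_mul, mul_zero, sub_zero]
        exact_mod_cast h1
  refine ⟨m, hm, fun l D => (Matrix.of fun a b => D a (algebraMap E M (y b))).det ^ m *
    algebraMap E M (ω l EE), hsec, E', fun l => ?_, ?_⟩
  · change (Matrix.of fun a b => E' a (algebraMap E M (y b))).det ^ m *
      algebraMap E M (ω l EE) ≠ 0
    rw [hdet, one_pow, one_mul]
    exact (map_ne_zero_iff _ (algebraMap E M).injective).2 (hE0 l)
  · have h1 : (fun l : Fin p => (Matrix.of fun a b => E' a (algebraMap E M (y b))).det ^ m *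
        algebraMap E M (ω l.succ EE) / ((Matrix.of fun a b => E' a (algebraMap E M (y b))).det ^ m *
        algebraMap E M (ω 0 EE))) = fun l : Fin p => algebraMap E M (ω l.succ D / ω 0 D) := by
      funext l
      rw [hdet, one_pow, one_mul, one_mul, hval, hval, mul_div_mul_left _ _ hdet0, map_div₀]
    rw [h1]
    exact hindM

end

end Pool.Agent.U393.IT
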