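import Pool.Agent.U192.PT.Trans
import Pool.Agent.U393.UT.Neg
import Pool.Agent.R882.UC
import Pool.Agent.Y174.B7

/-!
Kodaira dimensions over general base fields: finite extensions and generic fibres.
-/

set_option autoImplicit false
set_option linter.overlappingInstances false
set_option linter.unusedSectionVars false

open FF Pool.Agent.W602.GT
open Pool.Agent.Y174 (PairSec PairKod)

namespace Pool.Agent.U393.IT

section

variable {k K : Type} [Field k] [Field K] [Algebra k K]

/-- the Kodaira dimension without boundary, in the two forms -/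
theorem kd_iff {n h : ℕ} :
    KodGe k K n (fun _ => False) h ↔ PairKod k K n (fun _ => 0) h := by
  constructor
  · rintro ⟨N, hN, ω, hω, D, hD, hind⟩
    refine ⟨N, hN, ω, fun l => ⟨(hω l).1, fun v hv G hG => ?_⟩, D, fun l => ?_, hind⟩
    · rcases (hω l).2.2 v hv id G hG with h0 | h0
      · exact Or.inl h0
      · refine Or.inr ⟨1, Finset.mem_singleton_self _, one_ne_zero, ?_⟩
        rw [Nat.cast_zero, zero_mul, mul_zero, sub_zero]
        exact_mod_cast h0
    · refine Fin.cases hD (fun l => ?_) l
      intro h0
      apply hind.ne_zero l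
      simp only [h0, zero_div]
  · rintro ⟨m, hm, ω, hω, D, hD, hind⟩
    have hreg : ∀ l, ∀ P : Place k K, Divisorial n P → RegAt P (ω l) := by
      intro l P hP G hG
      rcases (hω l).2 P hP G hG with h0 | ⟨s, hs, hs0, hle⟩
      · exact Or.inl h0
      · right
        rw [Nat.cast_zero, zero_mul, mul_zero, sub_zero] at hle
        exact_mod_cast hle
    refine ⟨m, hm, ω, fun l => ⟨(hω l).1, fun P hP G hG => hreg l P hP G fun i f hf => ?_,
      fun P hP _ => hreg l P hP⟩, D, hD 0, hind⟩
    by_cases hf0 : f = 0
    · rw [hf0, map_zero]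
      exact P.reg_zero
    · have h1 : G i f = G i f / f * f := (div_mul_cancel₀ _ hf0).symm
      rw [h1]
      exact P.reg_mul (hG i f) hf

/-- a variety of dimension zero has Kodaira dimension zero -/
theorem kd_point : PairKod k K 0 (fun _ => 0) 0 := by
  refine ⟨1, le_refl _, fun _ _ => 1, fun l => ⟨fun A D => ?_, fun v hv D hD => Or.inr
    ⟨1, Finset.mem_singleton_self _, one_ne_zero, ?_⟩⟩, Fin.elim0, fun _ => one_ne_zero, ?_⟩
  · rw [Matrix.det_fin_zero, one_pow, mul_one]
  · rw [Nat.cast_zero, zero_mul, mul_zero, sub_zero, v.ord_one]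
    norm_num
  · exact (algebraicIndependent_empty_type_iff).2 (algebraMap k K).injective

end

section

variable {k M L : Type} [Field k] [Field M] [Field L] [Algebra k M] [Algebra M L] [Algebra k L]
  [IsScalarTower k M L]

/-- Among `h` algebraically independent elements there are `h - g` which are algebraically
independent over a subfield of transcendence degree `g`. -/
theorem pick {g h : ℕ} (hM : Algebra.trdeg k M = g) {x : Fin h → L}
    (hx : AlgebraicIndependent k x) :
    ∃ s : Fin (h - g) → Fin h, AlgebraicIndependent M fun i => x (s i) := by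
  classical
  obtain ⟨N, hN⟩ : ∃ N : IntermediateField M L, N = IntermediateField.adjoin M (Set.range x) :=
    ⟨_, rfl⟩
  have hxN : ∀ i, x i ∈ N := by
    intro i
    rw [hN]
    exact IntermediateField.subset_adjoin _ _ ⟨i, rfl⟩
  obtain ⟨R', hR'⟩ : ∃ R' : Set N, R' = {z : N | ∃ i, x i = z} := ⟨_, rfl⟩
  have halg : Algebra.IsAlgebraic (Algebra.adjoin M R') N := by
    have h1 : IntermediateField.adjoin M R' = ⊤ := by
      rw [eq_top_iff]
      intro z _
      have h2 : (IntermediateField.adjoin M R').map N.val = N := by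
        rw [IntermediateField.adjoin_map]
        conv_rhs => rw [hN]
        congr 1
        ext w
        constructor
        · rintro ⟨w', hw', rfl⟩
          rw [hR'] at hw'
          obtain ⟨i, h3⟩ := hw'
          exact ⟨i, h3⟩
        · rintro ⟨i, rfl⟩
          refine ⟨⟨x i, hxN i⟩, ?_, rfl⟩
          rw [hR']
          exact ⟨i, rfl⟩
      have h3 : (z : L) ∈ (IntermediateField.adjoin M R').map N.val := by
        rw [h2]
        exact z.2
      obtain ⟨z', hz', h4⟩ := h3
      have h5 : z' = z := Subtype.ext h4
      rw [← h5]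
      exact hz'
    have h2 : ∀ z : N, IsAlgebraic (IntermediateField.adjoin M R') z := by
      intro z
      have h3 : z ∈ IntermediateField.adjoin M R' := by
        rw [h1]
        exact IntermediateField.mem_top
      exact isAlgebraic_algebraMap (⟨z, h3⟩ : IntermediateField.adjoin M R')
    exact Pool.Agent.W619.PQ.alg_adjoin h2
  obtain ⟨B, hBR, hB⟩ := exists_isTranscendenceBasis_subset (R := M) (A := N) R'
  have hτ : ∀ z : B, ∃ i, x i = ((z : N) : L) := by
    intro z
    have h1 := hBR z.2
    rw [hR'] at h1
    exact h1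
  choose f hf using hτ
  have hfi : AlgebraicIndependent M fun z : B => x (f z) := by
    have h1 : AlgebraicIndependent M fun z : B => ((z : N) : L) :=
      hB.1.map' (f := N.val) N.val.injective
    have h2 : (fun z : B => x (f z)) = fun z : B => ((z : N) : L) := by
      funext z
      exact hf z
    rw [h2]
    exact h1
  have h1 : AlgebraicIndependent k fun i => (⟨x i, hxN i⟩ : N) := by
    refine (AlgHom.algebraicIndependent_iff (N.val.restrictScalars k) N.val.injective).1 ?_
    exact hx
  have h2 := h1.cardinalMk_le_trdeg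
  rw [Cardinal.mk_fin] at h2
  have h3 : (g : Cardinal) + Cardinal.mk B = Algebra.trdeg k N := by
    rw [← hM, hB.cardinalMk_eq_trdeg]
    exact trdeg_add_eq k M
  rcases Nat.le_total h g with hle | hle
  · have h4 : h - g = 0 := Nat.sub_eq_zero_of_le hle
    have : IsEmpty (Fin (h - g)) := by
      rw [h4]
      infer_instance
    exact ⟨fun i => isEmptyElim i,
      (algebraicIndependent_empty_type_iff).2 (algebraMap M L).injective⟩
  · obtain ⟨b, rfl⟩ := Nat.exists_eq_add_of_le hle
    rw [Nat.add_sub_cancel_left]
    rw [← h3] at h2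
    push_cast at h2
    have h4 : (b : Cardinal) ≤ Cardinal.mk B :=
      (Cardinal.add_le_add_iff_of_lt_aleph0 (Cardinal.natCast_lt_aleph0 (n := g))).1 (by rw [add_comm (b : Cardinal), add_comm (Cardinal.mk B)]; exact h2)
    rw [← Cardinal.mk_fin] at h4
    obtain ⟨e⟩ := Cardinal.le_def _ _ |>.1 h4
    exact ⟨fun i => f (e i), hfi.comp _ e.injective⟩

end

section

variable {k M L : Type} [Field k] [CharZero k] [Field M] [Field L] [Algebra k M] [Algebra M L]
  [Algebra k L] [IsScalarTower k M L]

/-- **Restriction to the generic fibre.** -/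
theorem rest [Algebra.EssFiniteType k L] {g f h : ℕ} (hM : Algebra.trdeg k M = g)
    (hL : Algebra.trdeg M L = f) (hk : PairKod k L (g + f) (fun _ => 0) h) :
    PairKod M L f (fun _ => 0) (h - g) := by
  classical
  have hM0 : CharZero M := charZero_of_injective_algebraMap (algebraMap k M).injective
  have hn : Algebra.trdeg k L = (g + f : ℕ) := by
    have h1 := trdeg_add_eq k M (A := L)
    rw [hM, hL] at h1
    rw [← h1]
    push_cast
    rfl
  rcases f with _ | r
  · have h1 := Pool.Agent.R882.UA.kod_le_dim hn (kd_iff.2 hk)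
    have h2 : h - g = 0 := by omega
    rw [h2]
    exact kd_point
  obtain ⟨t, ht⟩ := Pool.Agent.W636.PG.exists_basis k M g hM
  obtain ⟨x, hx⟩ := Pool.Agent.W636.PG.exists_basis M L (r + 1) hL
  have hxt := Pool.Agent.Y174.basis_append ht hx
  obtain ⟨E, hE⟩ := Pool.Agent.W636.PG.exists_duals k L (g + (r + 1)) _ hxt
  obtain ⟨E', hE'⟩ := Pool.Agent.W636.PG.exists_duals M L (r + 1) _ hx
  obtain ⟨m, hm, ω, hω, D, hD, hind⟩ := hk
  have hval : ∀ l, ω l D = _ := fun l =>
    Pool.Agent.W636.PG.form_eq k L (g + (r + 1)) m _ hxt E hE (ω l) (hω l).1 D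
  obtain ⟨c, hc⟩ : ∃ c, c = (Matrix.of fun i j => D i (Fin.append (algebraMap M L ∘ t) x j)).det ^ m :=
    ⟨_, rfl⟩
  have hval' : ∀ l, ω l D = c * ω l E := by
    intro l
    rw [hval l, hc]
  have hc0 : c ≠ 0 := by
    intro h0
    apply hD 0
    rw [hval', h0, zero_mul]
  have hE0 : ∀ l, ω l E ≠ 0 := by
    intro l h0
    apply hD l
    rw [hval', h0, mul_zero]
  have hfib : Pool.Agent.Y174.IsPullFib (k := k) (K := L) (Λ := M) (F := L)
      (fun _ => (0 : ℝ)) (fun _ => (0 : ℝ)) := by
    intro v w e h
    have h1 : (1 : ℝ) ≤ e := by exact_mod_cast h.1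
    rw [max_eq_left (by linarith)]
  have hsec := fun l => Pool.Agent.Y174.res_sec (L := M) (K := L) (Λ := M) (F := L)
    inferInstance hn ht hx hE hfib (hω l)
  have hdet : (Matrix.of fun a b => E' a (algebraMap L L (x b))).det = 1 := by
    have h1 : (Matrix.of fun a b => E' a (algebraMap L L (x b))) = 1 := by
      ext a b
      rw [Matrix.of_apply, Matrix.one_apply]
      exact hE' a b
    rw [h1, Matrix.det_one]
  have hind' : AlgebraicIndependent k fun l : Fin h => ω l.succ E / ω 0 E := by
    have h1 : (fun l : Fin h => ω l.succ E / ω 0 E) = fun l : Fin h => ω l.succ D / ω 0 D := by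
      funext l
      rw [hval', hval', mul_div_mul_left _ _ hc0]
    rw [h1]
    exact hind
  obtain ⟨s, hs⟩ := pick (M := M) hM hind'
  have hS : (({1} : Finset L).image (algebraMap L L)) = {1} := by
    rw [Finset.image_singleton, map_one]
  rw [hS] at hsec
  refine ⟨m, hm, Fin.cons (fun D => (Matrix.of fun a b => D a (algebraMap L L (x b))).det ^ m *
    algebraMap L L (ω 0 E)) fun i => (fun D =>
      (Matrix.of fun a b => D a (algebraMap L L (x b))).det ^ m *
    algebraMap L L (ω (s i).succ E)), fun l => ?_, E', fun l => ?_, ?_⟩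
  · refine Fin.cases ?_ (fun l => ?_) l
    · exact hsec 0
    · exact hsec (s l).succ
  · refine Fin.cases ?_ (fun l => ?_) l
    · rw [Fin.cons_zero]
      change (Matrix.of fun a b => E' a (algebraMap L L (x b))).det ^ m *
        algebraMap L L (ω 0 E) ≠ 0
      rw [hdet, one_pow, one_mul]
      exact hE0 0
    · rw [Fin.cons_succ]
      change (Matrix.of fun a b => E' a (algebraMap L L (x b))).det ^ m *
        algebraMap L L (ω (s l).succ E) ≠ 0
      rw [hdet, one_pow, one_mul]
      exact hE0 _
  · have h3 : (fun l : Fin (h - g) => (Fin.cons (fun D =>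
        (Matrix.of fun a b => D a (algebraMap L L (x b))).det ^ m *
        algebraMap L L (ω 0 E)) (fun i => (fun D =>
        (Matrix.of fun a b => D a (algebraMap L L (x b))).det ^ m *
        algebraMap L L (ω (s i).succ E))) :
        Fin ((h - g) + 1) → (Fin (r + 1) → Derivation M L L) → L) l.succ E' /
        (Fin.cons (fun D => (Matrix.of fun a b => D a (algebraMap L L (x b))).det ^ m *
        algebraMap L L (ω 0 E)) (fun i => (fun D =>
        (Matrix.of fun a b => D a (algebraMap L L (x b))).det ^ m *
        algebraMap L L (ω (s i).succ E))) :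
        Fin ((h - g) + 1) → (Fin (r + 1) → Derivation M L L) → L) 0 E') =
        fun l => ω (s l).succ E / ω 0 E := by
      funext l
      rw [Fin.cons_succ, Fin.cons_zero]
      change (Matrix.of fun a b => E' a (algebraMap L L (x b))).det ^ m *
        algebraMap L L (ω (s l).succ E) / ((Matrix.of fun a b =>
          E' a (algebraMap L L (x b))).det ^ m * algebraMap L L (ω 0 E)) = _
      rw [hdet, one_pow, one_mul, one_mul]
      rfl
    rw [h3]
    exact hs

/-- **Finite extensions.** -/
theorem up [FiniteDimensional M L] [Algebra.EssFiniteType k M] {n h : ℕ}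
    (hn : Algebra.trdeg k M = n) (hk : PairKod k M n (fun _ => 0) h) :
    PairKod k L n (fun _ => 0) h :=
  Pool.Agent.Y174.pair_up inferInstance hn Pool.Agent.Y174.isPull_zero hk

end

end Pool.Agent.U393.IT
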