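import Pool.Agent.U393.IT.Base

/-!
The inequality for a fibration, from the inequality for its base change.
-/

set_option autoImplicit false
set_option linter.overlappingInstances false
set_option linter.unusedSectionVars false

open FF Pool.Agent.W602.GT Pool.Agent.W603.LV Pool.Agent.W619.PQ
open Pool.Agent.Y174 (PairSec PairKod resPl)

namespace Pool.Agent.U393.IT

section

variable {E U M : Type} [Field E] [Field U] [Field M] [Algebra ℂ E] [Algebra ℂ U]
  [Algebra ℂ M] [Algebra E M] [Algebra U M] [IsScalarTower ℂ E M] [IsScalarTower ℂ U M]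

/-- **The image in the product with `X`.** -/
theorem base_fib [Algebra.EssFiniteType ℂ E] [Algebra.EssFiniteType ℂ M] {e d e0 g p : ℕ}
    (hE : Algebra.trdeg ℂ E = e) (hU : Algebra.trdeg ℂ U = d) (hM : Algebra.trdeg U M = e0)
    (hg : Algebra.trdeg E M = g)
    (hgen : IntermediateField.adjoin E (Set.range (algebraMap U M)) = ⊤)
    (hp : PairKod ℂ E e (fun _ => 0) p) :
    g ≤ d ∧ PairKod U M e0 (fun _ => 0) (p - (d - g)) := by
  classical
  have hn : e + g = d + e0 := by
    have h1 := trdeg_add_eq ℂ E (A := M)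
    have h2 := trdeg_add_eq ℂ U (A := M)
    rw [hE, hg] at h1
    rw [hU, hM, ← h1] at h2
    exact_mod_cast h2.symm
  have halg0 : Algebra.IsAlgebraic (Algebra.adjoin E (Set.range (algebraMap U M))) M := by
    refine Pool.Agent.W619.PQ.alg_adjoin fun z => ?_
    have h3 : z ∈ IntermediateField.adjoin E (Set.range (algebraMap U M)) := by
      rw [hgen]
      exact IntermediateField.mem_top
    exact isAlgebraic_algebraMap
      (⟨z, h3⟩ : IntermediateField.adjoin E (Set.range (algebraMap U M)))
  obtain ⟨B, hBU, hB⟩ := exists_isTranscendenceBasis_subset (R := E) (A := M)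
    (Set.range (algebraMap U M))
  have hu : ∀ b : B, ∃ z : U, algebraMap U M z = b := fun b => hBU b.2
  choose u hu using hu
  have hcB : Cardinal.mk B = g := by
    rw [← hg]
    exact hB.cardinalMk_eq_trdeg
  have huind : AlgebraicIndependent ℂ u := by
    have h1 : AlgebraicIndependent ℂ fun b : B => (b : M) := hB.1.restrictScalars
      (algebraMap ℂ E).injective
    have h2 : (fun b : B => (b : M)) = (IsScalarTower.toAlgHom ℂ U M) ∘ u := by
      funext b
      exact (hu b).symm
    rw [h2] at h1
    exact (AlgHom.algebraicIndependent_iff (IsScalarTower.toAlgHom ℂ U M)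
      (algebraMap U M).injective).1 h1
  obtain ⟨k', hk'⟩ : ∃ k' : IntermediateField ℂ U, k' = IntermediateField.adjoin ℂ (Set.range u) :=
    ⟨_, rfl⟩
  have huk : ∀ b, u b ∈ k' := by
    intro b
    rw [hk']
    exact IntermediateField.subset_adjoin _ _ ⟨b, rfl⟩
  have hk : Algebra.trdeg ℂ k' = g := by
    rw [← hcB]
    apply le_antisymm
    · refine (Pool.Agent.W904.PG.trdeg_le_acl (Set.range u) k' ?_).trans Cardinal.mk_range_le
      rw [hk', IntermediateField.adjoin_le_iff]
      exact Pool.Agent.W904.PG.subset_acl _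
    · have h1 : AlgebraicIndependent ℂ fun b => (⟨u b, huk b⟩ : k') := by
        refine (AlgHom.algebraicIndependent_iff k'.val k'.val.injective).1 ?_
        exact huind
      exact h1.cardinalMk_le_trdeg
  have hkM : Algebra.trdeg k' M = e := by
    have h1 := trdeg_add_eq ℂ k' (A := M)
    have h2 := trdeg_add_eq ℂ E (A := M)
    rw [hk, ← h2, hE, hg, add_comm] at h1
    exact Cardinal.eq_of_add_eq_add_right h1 Cardinal.natCast_lt_aleph0
  have hkU : Algebra.trdeg k' U = (d - g : ℕ) := by
    have h1 := trdeg_add_eq ℂ k' (A := U)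
    have h2 := trdeg_add_eq k' U (A := M)
    rw [hk, hU] at h1
    rw [hM, hkM] at h2
    have h3 : Algebra.trdeg k' U < Cardinal.aleph0 := by
      refine lt_of_le_of_lt ?_ (Cardinal.natCast_lt_aleph0 (n := e))
      rw [← h2]
      exact self_le_add_right _ _
    obtain ⟨c, hc⟩ := Cardinal.lt_aleph0.1 h3
    rw [hc] at h1 ⊢
    have h4 : g + c = d := by exact_mod_cast h1
    have h5 : c = d - g := by omega
    rw [h5]
  have halg : Algebra.IsAlgebraic (IntermediateField.adjoin k' (Set.range (algebraMap E M))) M := by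
    have h1 : Algebra.IsAlgebraic (IntermediateField.adjoin E (Set.range fun b : B => (b : M))) M :=
      hB.isAlgebraic_field
    obtain ⟨N, hN⟩ : ∃ N : IntermediateField k' M,
      N = IntermediateField.adjoin k' (Set.range (algebraMap E M)) := ⟨_, rfl⟩
    obtain ⟨N', hN'⟩ : ∃ N' : IntermediateField E M, ∀ z, z ∈ N' ↔ z ∈ N :=
      ⟨N.toSubfield.toIntermediateField (fun z => by
        change algebraMap E M z ∈ N
        rw [hN]
        exact IntermediateField.subset_adjoin _ _ ⟨z, rfl⟩), fun z => Iff.rfl⟩
    have h2 : IntermediateField.adjoin E (Set.range fun b : B => (b : M)) ≤ N' := by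
      rw [IntermediateField.adjoin_le_iff]
      rintro _ ⟨b, rfl⟩
      change (b : M) ∈ N'
      rw [hN', ← hu b]
      exact N.algebraMap_mem ⟨u b, huk b⟩
    rw [← hN]
    constructor
    intro z
    obtain ⟨φ, hφ⟩ : ∃ φ : IntermediateField.adjoin E (Set.range fun b : B => (b : M)) →+* N,
        ∀ z, (φ z : M) = z :=
      ⟨(IntermediateField.adjoin E (Set.range fun b : B => (b : M))).val.toRingHom.codRestrict
        N (fun z => (hN' _).1 (h2 z.2)), fun z => rfl⟩
    exact (h1.isAlgebraic z).ringHom_of_comp_eq φ (RingHom.id M) φ.injective (by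
      ext z
      exact hφ z)
  have h1 := base_up hE hk hkM halg hp
  have hess : Algebra.EssFiniteType k' M := Algebra.EssFiniteType.of_comp ℂ k' M
  have hch : CharZero k' := charZero_of_injective_algebraMap (algebraMap ℂ k').injective
  have he : e = (d - g) + e0 := by
    have h2 := trdeg_add_eq k' U (A := M)
    rw [hkU, hM, hkM] at h2
    exact_mod_cast h2.symm
  have hgd : g ≤ d := by
    have h2 := huind.cardinalMk_le_trdeg
    rw [hcB, hU] at h2
    exact_mod_cast h2
  rw [he] at h1
  exact ⟨hgd, rest hkU hM h1⟩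

end

/-- Iitaka's inequality for all the fibrations of the variety over `k` with the function field
`K`. -/
def Iit (k K : Type) [Field k] [Field K] [Algebra k K] : Prop :=
  ∀ (M : IntermediateField k K) (e f p q : ℕ), Algebra.EssFiniteType k M →
    Algebra.trdeg k M = e → Algebra.trdeg M K = f →
    KodGe k M e (fun _ => False) p → KodGe M K f (fun _ => False) q →
    KodGe k K (e + f) (fun _ => False) (p + q)

section

variable {E K U L : Type} [Field E] [Field K] [Field U] [Field L] [Algebra ℂ E] [Algebra ℂ K]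
  [Algebra ℂ U] [Algebra ℂ L] [Algebra E K] [Algebra E L] [Algebra K L] [Algebra U L]
  [IsScalarTower ℂ E K] [IsScalarTower ℂ E L] [IsScalarTower ℂ K L] [IsScalarTower ℂ U L]
  [IsScalarTower E K L]

/-- **The inequality for one fibration.** -/
theorem chain [Algebra.EssFiniteType ℂ E] [Algebra.EssFiniteType ℂ K] [Algebra.EssFiniteType ℂ U]
    [Algebra.EssFiniteType ℂ L]
    [FiniteDimensional K L] {d s e f e0 p q : ℕ} (hU : Algebra.trdeg ℂ U = d)
    (hL : Algebra.trdeg U L = s) (hE : Algebra.trdeg ℂ E = e) (hf : Algebra.trdeg E K = f)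
    (M : IntermediateField U L) (hM : M = IntermediateField.adjoin U (Set.range (algebraMap E L)))
    (he0 : Algebra.trdeg U M = e0) {Q : ℕ → Prop}
    (hI : ∀ f0 p' q' : ℕ, Algebra.EssFiniteType U M → Algebra.trdeg M L = f0 → e0 + f0 = s →
      PairKod U M e0 (fun _ => 0) p' → PairKod M L f0 (fun _ => 0) q' → Q (p' + q'))
    (hp : KodGe ℂ E e (fun _ => False) p) (hq : KodGe E K f (fun _ => False) q) :
    ∃ c, e = e0 + c ∧ c ≤ d ∧ Q ((p - c) + (q - (d - c))) := by
  classical
  have hE0 : CharZero E := charZero_of_injective_algebraMap (algebraMap ℂ E).injective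
  rw [kd_iff] at hp hq
  have hessEK : Algebra.EssFiniteType E K := Algebra.EssFiniteType.of_comp ℂ E K
  have hessEL : Algebra.EssFiniteType E L := Algebra.EssFiniteType.of_comp ℂ E L
  have hessUL : Algebra.EssFiniteType U L := Algebra.EssFiniteType.of_comp ℂ U L
  have hqL : PairKod E L f (fun _ => 0) q := up hf hq
  have hfL : Algebra.trdeg E L = f := by
    have h1 := trdeg_add_eq E K (A := L)
    have h2 : Algebra.trdeg K L = 0 := trdeg_eq_zero
    rw [hf, h2, add_zero] at h1
    exact h1.symm
  have hEM : ∀ z : E, algebraMap E L z ∈ M := by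
    intro z
    rw [hM]
    exact IntermediateField.subset_adjoin _ _ ⟨z, rfl⟩
  let _ : Algebra E M := ((algebraMap E L).codRestrict M hEM).toAlgebra
  have hval : ∀ z : E, ((algebraMap E M z : M) : L) = algebraMap E L z := fun z => rfl
  have _ : IsScalarTower E M L := IsScalarTower.of_algebraMap_eq fun z => rfl
  have _ : IsScalarTower ℂ E M := IsScalarTower.of_algebraMap_eq fun z => by
    apply Subtype.ext
    rw [hval, ← IsScalarTower.algebraMap_apply ℂ E L]
    rfl
  have hessM : Algebra.EssFiniteType U M := by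
    obtain ⟨t, ht⟩ := IntermediateField.fg_top ℂ E
    refine IntermediateField.essFiniteType_iff.2 ⟨t.image (algebraMap E L), ?_⟩
    rw [hM]
    apply le_antisymm
    · refine IntermediateField.adjoin.mono _ _ _ ?_
      rw [Finset.coe_image]
      exact Set.image_subset_range _ _
    · rw [IntermediateField.adjoin_le_iff]
      rintro _ ⟨z, rfl⟩
      have h1 : IntermediateField.adjoin ℂ (t : Set E) ≤
          ((IntermediateField.adjoin U ((t.image (algebraMap E L) : Finset L) : Set L)).restrictScalars
            ℂ).comap (IsScalarTower.toAlgHom ℂ E L) := by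
        rw [IntermediateField.adjoin_le_iff]
        intro i hi
        change algebraMap E L i ∈ IntermediateField.adjoin U _
        refine IntermediateField.subset_adjoin _ _ ?_
        rw [Finset.coe_image]
        exact Set.mem_image_of_mem _ hi
      rw [ht] at h1
      exact h1 (IntermediateField.mem_top : z ∈ (⊤ : IntermediateField ℂ E))
  have hessCM : Algebra.EssFiniteType ℂ M := Algebra.EssFiniteType.comp ℂ U M
  obtain ⟨g, hg⟩ : ∃ g : ℕ, Algebra.trdeg E M = g := by
    have : Algebra.EssFiniteType E M := Algebra.EssFiniteType.of_comp ℂ E M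
    exact Cardinal.lt_aleph0.1 (trdeg_lt_aleph0 E M)
  obtain ⟨f0, hf0⟩ : ∃ f0 : ℕ, Algebra.trdeg M L = f0 := by
    have : Algebra.EssFiniteType M L := Algebra.EssFiniteType.of_comp U M L
    exact Cardinal.lt_aleph0.1 (trdeg_lt_aleph0 M L)
  have h1 : g + f0 = f := by
    have h1 := trdeg_add_eq E M (A := L)
    rw [hg, hf0, hfL] at h1
    exact_mod_cast h1
  have h2 : e0 + f0 = s := by
    have h1 := trdeg_add_eq U M (A := L)
    rw [he0, hf0, hL] at h1
    exact_mod_cast h1
  have h3 : e + g = d + e0 := by
    have h1 := trdeg_add_eq ℂ E (A := M)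
    have h2 := trdeg_add_eq ℂ U (A := M)
    rw [hE, hg] at h1
    rw [hU, he0, ← h1] at h2
    exact_mod_cast h2.symm
  have hgen : IntermediateField.adjoin E (Set.range (algebraMap U M)) = ⊤ := by
    obtain ⟨N, hN⟩ : ∃ N : IntermediateField E M,
      N = IntermediateField.adjoin E (Set.range (algebraMap U M)) := ⟨_, rfl⟩
    obtain ⟨N', hN'⟩ : ∃ N' : IntermediateField U L, ∀ z : L, z ∈ N' ↔ ∃ z' ∈ N, (z' : L) = z :=
      ⟨(N.toSubfield.map M.val.toRingHom).toIntermediateField (fun z => ⟨algebraMap U M z, by
        change algebraMap U M z ∈ N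
        rw [hN]
        exact IntermediateField.subset_adjoin _ _ ⟨z, rfl⟩, rfl⟩), fun z => Iff.rfl⟩
    have h1 : M ≤ N' := by
      conv_lhs => rw [hM]
      rw [IntermediateField.adjoin_le_iff]
      rintro _ ⟨z, rfl⟩
      change _ ∈ N'
      rw [hN']
      exact ⟨algebraMap E M z, N.algebraMap_mem z, rfl⟩
    rw [← hN, eq_top_iff]
    intro z _
    obtain ⟨z', hz', h2⟩ := (hN' _).1 (h1 z.2)
    have h3 : z' = z := Subtype.ext h2
    rw [← h3]
    exact hz'
  obtain ⟨hgd, hp'⟩ := base_fib hE hU he0 hg hgen hp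
  rw [← h1] at hqL
  have hq' := rest (k := E) (M := M) (L := L) hg hf0 hqL
  have h4 := hI f0 _ _ hessM hf0 h2 hp' hq'
  refine ⟨d - g, by omega, by omega, ?_⟩
  have h5 : d - (d - g) = g := by omega
  rw [h5]
  exact h4

end

end Pool.Agent.U393.IT
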