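import Pool.Agent.U393.IT.Chain

/-!
The Kodaira dimension of the base change of a variety is the one of the variety.
-/

set_option autoImplicit false
set_option linter.overlappingInstances false
set_option linter.unusedSectionVars false

open FF IntermediateField Pool.Agent.W619.PQ Pool.Agent.W603.LV Pool.Agent.Y172
open Pool.Agent.W602.GT (Divisorial DerReg IsPluri KodGe)
open Pool.Agent.W619.TW (HasIndep RR)
open Pool.Agent.Y174 (PairSec PairKod PairNum IsPull IsPullFib LiesOn resPl)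
open Pool.Agent.U192.PB
open Pool.Agent.U192.NM (dg pol)
open Pool.Agent.U192.PE
open Pool.Agent.U192.PN (IsProd DivBd fib_of num_fib easy_pair divBd_pull exists_prod prod_ord
  HorReg PReg PairNeg horReg_ge)

namespace Pool.Agent.U393.IT

theorem sec_jk {k F : Type} [Field k] [Field F] [Algebra k F] {n m : ℕ} {δ : Place k F → ℝ}
    {ω : (Fin n → Derivation k F F) → F} (h : PairSec k F n δ {1} m 0 ω) :
    PairSec k F n δ {1} m 1 ω := by
  refine ⟨h.1, fun v hv G hG => ?_⟩
  rcases h.2 v hv G hG with h1 | ⟨s, hs, hs0, h1⟩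
  · exact Or.inl h1
  · refine Or.inr ⟨s, hs, hs0, ?_⟩
    rw [Finset.mem_singleton] at hs
    rw [hs, v.ord_one] at h1 ⊢
    simpa using h1

/-- **The Kodaira dimension of `Y` is at least the one of its base change.** -/
theorem desc {L : Type} [Field L] [Algebra ℂ L] {U T : IntermediateField ℂ L}
    [Algebra.EssFiniteType ℂ U] [Algebra.EssFiniteType ℂ T] {d n b : ℕ}
    (hsup : U ⊔ T = ⊤) (hU : Algebra.trdeg ℂ U = d) (hT : Algebra.trdeg ℂ T = n)
    (hL : Algebra.trdeg ℂ L = (d + n : ℕ)) (hk : PairKod U L n (fun _ => 0) b) :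
    PairKod ℂ T n (fun _ => 0) b := by
  classical
  have hessL : Algebra.EssFiniteType ℂ L := ess_prod U T hsup
  have hU0 : CharZero U := charZero_of_injective_algebraMap (algebraMap ℂ U).injective
  obtain ⟨N, hN, ω, hω, D1, hD1, hind⟩ := hk
  obtain ⟨u, hu⟩ := Pool.Agent.W636.PG.exists_basis ℂ U d hU
  obtain ⟨t, ht⟩ := Pool.Agent.W636.PG.exists_basis ℂ T n hT
  have hbas := basis_over hsup hU hL ht
  obtain ⟨E, E', hE, hE', hEE⟩ := exists_der_along hsup hU hL ht
  have hcoord : ∀ j, ω j D1 = _ := fun j =>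
    Pool.Agent.W636.PG.form_eq U L n N _ hbas E hE (ω j) (hω j).1 D1
  obtain ⟨c, hc⟩ : ∃ c, c = (Matrix.of fun i j => D1 i ((t j : T) : L)).det ^ N := ⟨_, rfl⟩
  have hcoord' : ∀ j, ω j D1 = c * ω j E := by
    intro j
    rw [hcoord j, hc]
  have hc0 : c ≠ 0 := by
    intro h0
    apply hD1 0
    rw [hcoord', h0, zero_mul]
  have hne : ∀ j, ω j E ≠ 0 := by
    intro j h0
    apply hD1 j
    rw [hcoord', h0, mul_zero]
  have hexp := fun j => Pool.Agent.U192.PT.base_values hsup hU hT hL (δU := fun _ => 0) (δT := fun _ => 0)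
    (fun _ _ _ => le_refl _) (fun _ _ _ _ _ => le_refl _) ht hE hE' hEE (S := {1}) (ST := {1})
    (q := 1) one_ne_zero (fun s hs => by
      rw [Finset.mem_singleton.1 hs, one_mul]
      exact one_mem _) (fun s hs => by
      refine ⟨1, fun _ => 1, fun _ => 1, fun _ => Finset.mem_singleton_self _, ?_⟩
      rw [Finset.mem_singleton.1 hs]
      simp) (sec_jk (hω j))
  choose l β μ hval hsec using hexp
  have h2 : ∃ i, μ 0 i ≠ 0 := by
    by_contra hcon
    push Not at hcon
    apply hne 0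
    have h3 := hval 0
    rw [one_mul] at h3
    rw [h3]
    refine Finset.sum_eq_zero fun i _ => ?_
    rw [hcon i]
    simp
  obtain ⟨i0, hi0⟩ := h2
  obtain ⟨R, hR⟩ : ∃ R : Set T, R = {τ | ∃ j i, τ = μ j i / μ 0 i0} := ⟨_, rfl⟩
  have hmem : ∀ j, (ω j E) / (μ 0 i0 : L) ∈
      U ⊔ IntermediateField.adjoin ℂ ((fun τ : T => (τ : L)) '' R) := by
    intro j
    have h3 := hval j
    rw [one_mul] at h3
    rw [h3, Finset.sum_div]
    refine sum_mem fun i _ => ?_
    rw [mul_div_assoc]
    refine mul_mem ((le_sup_left : U ≤ _) (β j i).2) ((le_sup_right :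
      IntermediateField.adjoin ℂ ((fun τ : T => (τ : L)) '' R) ≤ _) ?_)
    refine IntermediateField.subset_adjoin _ _ ⟨μ j i / μ 0 i0, ?_, rfl⟩
    rw [hR]
    exact ⟨j, i, rfl⟩
  have hind1 : AlgebraicIndependent U fun j : Fin b => ω j.succ E / ω 0 E := by
    have h1 : (fun l : Fin b => ω l.succ E / ω 0 E) = fun l : Fin b => ω l.succ D1 / ω 0 D1 := by
      funext l
      rw [hcoord', hcoord', mul_div_mul_left _ _ hc0]
    rw [h1]
    exact hind
  have hind' : AlgebraicIndependent ℂ (Fin.append (algebraMap U L ∘ u)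
      (fun j : Fin b => ω j.succ E / ω 0 E)) := by
    have h1 := hu.1.sumElim_comp hind1
    have h3 : (Fin.append (algebraMap U L ∘ u) (fun j : Fin b => ω j.succ E / ω 0 E)) =
        Sum.elim (fun j : Fin b => ω j.succ E / ω 0 E) (algebraMap U L ∘ u) ∘
          (finSumFinEquiv.symm.trans (Equiv.sumComm _ _)) := by
      funext i
      refine Fin.addCases (fun c => ?_) (fun j => ?_) i
      · simp
      · simp
    rw [h3]
    exact h1.comp _ (Equiv.injective _)
  obtain ⟨s, hsR, hs⟩ := Pool.Agent.U192.PT.many_ratios hU R hind' (fun j => by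
    refine Fin.addCases (fun j => ?_) (fun j => ?_) j
    · rw [Fin.append_left]
      exact (le_sup_left : U ≤ _) (u j).2
    · rw [Fin.append_right]
      have h3 : ω j.succ E / ω 0 E = (ω j.succ E / (μ 0 i0 : L)) / (ω 0 E / (μ 0 i0 : L)) := by
        have h4 : (μ 0 i0 : L) ≠ 0 := by rwa [Ne, ZeroMemClass.coe_eq_zero]
        rw [div_div_div_cancel_right₀ h4]
      rw [h3]
      exact div_mem (hmem _) (hmem _))
  rw [hR] at hsR
  choose j i hji using hsR
  obtain ⟨Φ, hΦ⟩ : ∃ Φ : T → (Fin n → Derivation ℂ T T) → T, Φ = fun z G =>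
    (Matrix.of fun i j => G i (t j)).det ^ N * z := ⟨_, rfl⟩
  have hΦE : ∀ z, Φ z E' = z := by
    intro z
    rw [hΦ]
    have h5 : (Matrix.of fun i j => E' i (t j)) = (1 : Matrix (Fin n) (Fin n) T) := by
      ext i j
      rw [Matrix.of_apply, hE', Matrix.one_apply]
    change (Matrix.of fun i j => E' i (t j)).det ^ N * z = z
    rw [h5, Matrix.det_one, one_pow, one_mul]
  have hsec' : ∀ j i, PairSec ℂ T n (fun _ => 0) {1} N 0 (Φ (μ j i)) := by
    intro j i
    rw [hΦ]
    exact Pool.Agent.U192.PT.sec_j.2 (hsec j i)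
  refine ⟨N, hN, Fin.cons (Φ (μ 0 i0)) fun l => Φ (μ (j l) (i l)), fun l => ?_, E', fun l => ?_,
    ?_⟩
  · refine Fin.cases ?_ (fun l => ?_) l
    · exact hsec' 0 i0
    · exact hsec' _ _
  · refine Fin.cases ?_ (fun l => ?_) l
    · rw [Fin.cons_zero, hΦE]
      exact hi0
    · rw [Fin.cons_succ, hΦE]
      intro h0
      apply hs.ne_zero l
      rw [hji l, h0, zero_div]
  · have h3 : (fun l : Fin b => (Fin.cons (Φ (μ 0 i0)) (fun l => Φ (μ (j l) (i l))) :
        Fin (b + 1) → (Fin n → Derivation ℂ T T) → T) l.succ E' /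
        (Fin.cons (Φ (μ 0 i0)) (fun l => Φ (μ (j l) (i l))) :
        Fin (b + 1) → (Fin n → Derivation ℂ T T) → T) 0 E') = s := by
      funext l
      rw [Fin.cons_succ, Fin.cons_zero, hΦE, hΦE, hji l]
    rw [h3]
    exact hs

end Pool.Agent.U393.IT
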