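import Pool.Agent.U393.IT.Desc

/-!
Kodaira dimensions and algebraic extensions of the base field.
-/

set_option autoImplicit false
set_option linter.overlappingInstances false
set_option linter.unusedSectionVars false

open FF Pool.Agent.W602.GT
open Pool.Agent.Y174 (PairSec PairKod resPl)

namespace Pool.Agent.U393.IT

section

variable {k K Λ F : Type} [Field k] [CharZero k] [Field K] [Field Λ] [Field F] [Algebra k K]
  [Algebra k Λ] [Algebra k F] [Algebra Λ F] [Algebra K F] [IsScalarTower k Λ F]
  [IsScalarTower k K F]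

/-- **Algebraic extensions of the base field.** -/
theorem ext_up' [Algebra.EssFiniteType k K] [Algebra.IsAlgebraic k Λ] [Algebra.IsAlgebraic K F]
    {f h : ℕ} (hn : Algebra.trdeg k K = f)
    (hgen : IntermediateField.adjoin Λ (Set.range (algebraMap K F)) = ⊤)
    (hk : PairKod k K (0 + f) (fun _ => 0) h) : PairKod Λ F f (fun _ => 0) h := by
  classical
  have hn' : Algebra.trdeg k K = (0 + f : ℕ) := by rw [Nat.zero_add, hn]
  have hL0 : CharZero Λ := charZero_of_injective_algebraMap (algebraMap k Λ).injective
  rcases f with _ | r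
  · have h1 := Pool.Agent.R882.UA.kod_le_dim hn' (kd_iff.2 hk)
    have h2 : h = 0 := by omega
    rw [h2]
    exact kd_point
  obtain ⟨t, ht⟩ := Pool.Agent.W636.PG.exists_basis k k 0 (by rw [trdeg_eq_zero]; rfl)
  obtain ⟨x, hx⟩ := Pool.Agent.W636.PG.exists_basis k K (r + 1) hn
  have hxt := Pool.Agent.Y174.basis_append ht hx
  have hxF : IsTranscendenceBasis Λ (algebraMap K F ∘ x) :=
    Pool.Agent.Y174.basis_F (L := k) hn hgen hx
  obtain ⟨E, hE⟩ := Pool.Agent.W636.PG.exists_duals k K (0 + (r + 1)) _ hxt
  obtain ⟨E', hE'⟩ := Pool.Agent.W636.PG.exists_duals Λ F (r + 1) _ hxF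
  obtain ⟨m, hm, ω, hω, D, hD, hind⟩ := hk
  have hval : ∀ l, ω l D = _ := fun l =>
    Pool.Agent.W636.PG.form_eq k K (0 + (r + 1)) m _ hxt E hE (ω l) (hω l).1 D
  obtain ⟨c, hc⟩ : ∃ c, c = (Matrix.of fun i j => D i (Fin.append (algebraMap k K ∘ t) x j)).det ^ m :=
    ⟨_, rfl⟩
  have hval' : ∀ l, ω l D = c * ω l E := by
    intro l
    rw [hval l, hc]
  have hc0 : c ≠ 0 := by
    intro h0
    apply hD 0
    rw [hval', h0, zero_mul]
  have hE0 : ∀ l, ω l E ≠ 0 := by
    intro l h0
    apply hD l
    rw [hval', h0, mul_zero]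
  have hfib : Pool.Agent.Y174.IsPullFib (k := k) (K := K) (Λ := Λ) (F := F)
      (fun _ => (0 : ℝ)) (fun _ => (0 : ℝ)) := by
    intro v w e h
    have h1 : (1 : ℝ) ≤ e := by exact_mod_cast h.1
    rw [max_eq_left (by linarith)]
  have hsec := fun l => Pool.Agent.Y174.res_sec (L := k) (K := K) (Λ := Λ) (F := F)
    inferInstance hn' ht hx hE hfib (hω l)
  have hdet : (Matrix.of fun a b => E' a (algebraMap K F (x b))).det = 1 := by
    have h1 : (Matrix.of fun a b => E' a (algebraMap K F (x b))) = 1 := by
      ext a b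
      rw [Matrix.of_apply, Matrix.one_apply]
      exact hE' a b
    rw [h1, Matrix.det_one]
  have hind' : AlgebraicIndependent Λ fun l : Fin h => algebraMap K F (ω l.succ E / ω 0 E) := by
    have h1 : (fun l : Fin h => ω l.succ E / ω 0 E) = fun l : Fin h => ω l.succ D / ω 0 D := by
      funext l
      rw [hval', hval', mul_div_mul_left _ _ hc0]
    have h2 : AlgebraicIndependent k fun l : Fin h => algebraMap K F (ω l.succ E / ω 0 E) := by
      have h3 : (fun l : Fin h => algebraMap K F (ω l.succ E / ω 0 E)) =
          (IsScalarTower.toAlgHom k K F) ∘ fun l : Fin h => ω l.succ E / ω 0 E := rfl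
      rw [h3, h1]
      exact (AlgHom.algebraicIndependent_iff (IsScalarTower.toAlgHom k K F)
        (algebraMap K F).injective).2 hind
    exact h2.extendScalars Λ
  have hS : (({1} : Finset K).image (algebraMap K F)) = {1} := by
    rw [Finset.image_singleton, map_one]
  rw [hS] at hsec
  refine ⟨m, hm, fun l D => (Matrix.of fun a b => D a (algebraMap K F (x b))).det ^ m *
    algebraMap K F (ω l E), hsec, E', fun l => ?_, ?_⟩
  · change (Matrix.of fun a b => E' a (algebraMap K F (x b))).det ^ m *
      algebraMap K F (ω l E) ≠ 0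
    rw [hdet, one_pow, one_mul]
    exact (map_ne_zero_iff _ (algebraMap K F).injective).2 (hE0 l)
  · have h3 : (fun l : Fin h => (Matrix.of fun a b => E' a (algebraMap K F (x b))).det ^ m *
        algebraMap K F (ω l.succ E) / ((Matrix.of fun a b => E' a (algebraMap K F (x b))).det ^ m *
        algebraMap K F (ω 0 E))) = fun l : Fin h => algebraMap K F (ω l.succ E / ω 0 E) := by
      funext l
      rw [hdet, one_pow, one_mul, one_mul, map_div₀]
    rw [h3]
    exact hind'

theorem ext_up [Algebra.EssFiniteType k K] [Algebra.IsAlgebraic k Λ] [Algebra.IsAlgebraic K F]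
    {f h : ℕ} (hn : Algebra.trdeg k K = f)
    (hgen : IntermediateField.adjoin Λ (Set.range (algebraMap K F)) = ⊤)
    (hk : PairKod k K f (fun _ => 0) h) : PairKod Λ F f (fun _ => 0) h := by
  refine ext_up' hn hgen ?_
  rw [Nat.zero_add]
  exact hk

end

section

variable {k Ω F : Type} [Field k] [Field Ω] [Field F] [Algebra k Ω] [Algebra Ω F] [Algebra k F]
  [IsScalarTower k Ω F]

/-- a derivation is linear over the separable algebraic closure of the base field -/
theorem der_const [CharZero k] [Algebra.IsAlgebraic k Ω] (D : Derivation k F F) (c : Ω) :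
    D (algebraMap Ω F c) = 0 := by
  have h1 : IsAlgebraic k (algebraMap Ω F c) :=
    (Algebra.IsAlgebraic.isAlgebraic (R := k) c).algebraMap
  have h2 : IsIntegral k (algebraMap Ω F c) := h1.isIntegral
  have h3 := minpoly.aeval k (algebraMap Ω F c)
  have h4 := congrArg D h3
  rw [map_zero, Derivation.map_aeval, smul_eq_mul] at h4
  rcases mul_eq_zero.1 h4 with h5 | h5
  · exfalso
    have h6 : (minpoly k (algebraMap Ω F c)).Separable :=
      (minpoly.irreducible h2).separable
    obtain ⟨a, b, h7⟩ := h6
    have h8 := congrArg (Polynomial.aeval (algebraMap Ω F c)) h7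
    rw [map_add, map_mul, map_mul, h3, h5, mul_zero, mul_zero, add_zero, map_one] at h8
    exact zero_ne_one h8
  · exact h5

/-- derivations over the smaller field are derivations over the bigger field -/
theorem exists_der [CharZero k] [Algebra.IsAlgebraic k Ω] (D : Derivation k F F) :
    ∃ D' : Derivation Ω F F, ∀ f, D' f = D f := by
  refine ⟨Derivation.mk' (R := Ω) (M := F) (A := F)
    { toFun := D, map_add' := D.map_add, map_smul' := fun c f => ?_ } fun a b => ?_, fun f => rfl⟩
  · rw [RingHom.id_apply, Algebra.smul_def, D.leibniz, der_const, smul_zero, add_zero, smul_eq_mul,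
      Algebra.smul_def]
  · exact D.leibniz a b

end

end Pool.Agent.U393.IT
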