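import Pool.Agent.U393.IT.Ring2

/-!
The Lefschetz principle for Iitaka's inequality.
-/

set_option autoImplicit false
set_option linter.overlappingInstances false
set_option linter.unusedSectionVars false

open FF Pool.Agent.W602.GT
open Pool.Agent.Y174 (PairSec PairKod resPl)

namespace Pool.Agent.U393.IT

/-- algebraically closed fields of finite transcendence degree over `ℂ` are isomorphic to `ℂ` -/
theorem equiv_complex {Ω : Type} [Field Ω] [Algebra ℂ Ω] [IsAlgClosed Ω] {d : ℕ}
    (hd : Algebra.trdeg ℂ Ω = d) : Nonempty (ℂ ≃+* Ω) := by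
  have h0 : CharZero Ω := charZero_of_injective_algebraMap (algebraMap ℂ Ω).injective
  obtain ⟨t, ht⟩ := Pool.Agent.W636.PG.exists_basis ℂ Ω d hd
  have h1 := IsAlgClosed.cardinal_le_max_transcendence_basis' t ht
  have h2 : Cardinal.mk ℂ ≤ Cardinal.mk Ω := Cardinal.mk_le_of_injective (algebraMap ℂ Ω).injective
  have hc : Cardinal.aleph0 < Cardinal.mk ℂ := by
    rw [Cardinal.mk_complex]
    exact Cardinal.aleph0_lt_continuum
  have h3 : Cardinal.mk Ω ≤ Cardinal.mk ℂ := by
    refine h1.trans (max_le (max_le (le_refl _) ?_) hc.le)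
    rw [Cardinal.mk_fin]
    exact (Cardinal.natCast_lt_aleph0.trans hc).le
  exact IsAlgClosed.ringEquiv_of_equiv_of_charZero hc (Cardinal.eq.1 (le_antisymm h2 h3))

theorem gen_top {Ω F : Type} [Field Ω] [Field F] [Algebra Ω F] {M' : IntermediateField Ω F}
    {S : Set M'} (h : IntermediateField.adjoin Ω ((fun z : M' => (z : F)) '' S) = M') :
    IntermediateField.adjoin Ω S = ⊤ := by
  rw [eq_top_iff]
  intro z _
  have h2 : (IntermediateField.adjoin Ω S).map M'.val = M' := by
    rw [IntermediateField.adjoin_map]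
    exact h
  have h3 : (z : F) ∈ (IntermediateField.adjoin Ω S).map M'.val := by
    rw [h2]
    exact z.2
  obtain ⟨z', hz', h4⟩ := h3
  have h5 : z' = z := Subtype.ext h4
  rw [← h5]
  exact hz'

/-- **The Lefschetz principle.** -/
theorem lef_core {L F : Type} [Field L] [Field F] [Algebra ℂ L] [Algebra L F] [Algebra ℂ F]
    [IsScalarTower ℂ L F] {U T : IntermediateField ℂ L} [Algebra.EssFiniteType ℂ U]
    [Algebra.EssFiniteType ℂ T] {d n : ℕ} (hsup : U ⊔ T = ⊤) (hU : Algebra.trdeg ℂ U = d)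
    (hT : Algebra.trdeg ℂ T = n) (hL : Algebra.trdeg ℂ L = (d + n : ℕ))
    (Ω : IntermediateField ℂ F) [IsAlgClosed Ω]
    (hΩ : ∀ z : F, z ∈ Ω ↔ IsAlgebraic U z)
    (hgen : IntermediateField.adjoin Ω (Set.range (algebraMap L F)) = ⊤)
    (H : ∀ (K' : Type) [Field K'] [Algebra ℂ K'] [Algebra.EssFiniteType ℂ K'],
      Algebra.trdeg ℂ K' = n → Iit ℂ K')
    (M : IntermediateField U L) (e f p q : ℕ) (hM : Algebra.EssFiniteType U M)
    (he : Algebra.trdeg U M = e) (hf : Algebra.trdeg M L = f)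
    (hp : PairKod U M e (fun _ => 0) p) (hq : PairKod M L f (fun _ => 0) q) :
    PairKod ℂ T n (fun _ => 0) (p + q) := by
  classical
  have hessL : Algebra.EssFiniteType ℂ L := Pool.Agent.U192.PE.ess_prod U T hsup
  have hessUL : Algebra.EssFiniteType U L := Algebra.EssFiniteType.of_comp ℂ U L
  have hessML : Algebra.EssFiniteType M L := Algebra.EssFiniteType.of_comp U M L
  have hU0 : CharZero U := charZero_of_injective_algebraMap (algebraMap ℂ U).injective
  have hM0 : CharZero M := charZero_of_injective_algebraMap (algebraMap U M).injective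
  have hUL : Algebra.trdeg U L = n := Pool.Agent.Y174.trdeg_LK hU hL
  have hef : e + f = n := by
    have h1 := trdeg_add_eq U M (A := L)
    rw [he, hf, hUL] at h1
    exact_mod_cast h1
  -- `U → Ω`
  have hUΩ : ∀ u : U, algebraMap U F u ∈ Ω := fun u => (hΩ _).2 (isAlgebraic_algebraMap u)
  let _ : Algebra U Ω := ((algebraMap U F).codRestrict Ω hUΩ).toAlgebra
  have tUΩF : IsScalarTower U Ω F := IsScalarTower.of_algebraMap_eq fun _ => rfl
  have tCUΩ : IsScalarTower ℂ U Ω := IsScalarTower.of_algebraMap_eq fun c => by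
    apply Subtype.ext
    change algebraMap ℂ F c = algebraMap U F (algebraMap ℂ U c)
    rw [← IsScalarTower.algebraMap_apply]
  have halgΩ : Algebra.IsAlgebraic U Ω := ⟨fun z => by
    have h1 : IsAlgebraic U (z : F) := (hΩ _).1 z.2
    exact (isAlgebraic_algebraMap_iff (algebraMap Ω F).injective).1 h1⟩
  have halgLF : Algebra.IsAlgebraic L F := Pool.Agent.Y174.alg_KF (L := U) (Λ := Ω) hgen
  have hΩd : Algebra.trdeg ℂ Ω = d := by
    have h1 := trdeg_add_eq ℂ U (A := Ω)
    rw [hU, trdeg_eq_zero, add_zero] at h1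
    exact h1.symm
  obtain ⟨φ⟩ := equiv_complex hΩd
  have hessΩF : Algebra.EssFiniteType Ω F := Pool.Agent.Y174.ess_F (k := U) hessUL hgen
  have htrΩF : Algebra.trdeg Ω F = n := Pool.Agent.Y174.trdeg_F (L := U) hUL hgen
  have hIit : Iit Ω F := iit_of_equiv φ htrΩF H
  -- the intermediate field
  obtain ⟨M', hM'⟩ : ∃ M' : IntermediateField Ω F,
    M' = IntermediateField.adjoin Ω (Set.range (algebraMap M F)) := ⟨_, rfl⟩
  have hMM : ∀ z : M, algebraMap M F z ∈ M' := by
    intro z
    rw [hM']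
    exact IntermediateField.subset_adjoin _ _ ⟨z, rfl⟩
  let _ : Algebra M M' := ((algebraMap M F).codRestrict M' hMM).toAlgebra
  have tMMF : IsScalarTower M M' F := IsScalarTower.of_algebraMap_eq fun _ => rfl
  have tUMM : IsScalarTower U M M' := IsScalarTower.of_algebraMap_eq fun c => by
    apply Subtype.ext
    change algebraMap U F c = algebraMap M F (algebraMap U M c)
    rw [← IsScalarTower.algebraMap_apply]
  have tUΩM : IsScalarTower U Ω M' := IsScalarTower.of_algebraMap_eq fun c => by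
    apply Subtype.ext
    rfl
  have hgen1 : IntermediateField.adjoin Ω (Set.range (algebraMap M M')) = ⊤ := by
    refine gen_top ?_
    conv_rhs => rw [hM']
    congr 1
    ext w
    constructor
    · rintro ⟨_, ⟨z, rfl⟩, rfl⟩
      exact ⟨z, rfl⟩
    · rintro ⟨z, rfl⟩
      exact ⟨algebraMap M M' z, ⟨z, rfl⟩, rfl⟩
  have halgM : Algebra.IsAlgebraic M M' := Pool.Agent.Y174.alg_KF (L := U) (Λ := Ω) hgen1
  have hgen2 : IntermediateField.adjoin M' (Set.range (algebraMap L F)) = ⊤ := by
    rw [eq_top_iff]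
    have h1 : (⊤ : IntermediateField Ω F) ≤
        (IntermediateField.adjoin M' (Set.range (algebraMap L F))).restrictScalars Ω := by
      rw [← hgen, IntermediateField.adjoin_le_iff]
      exact IntermediateField.subset_adjoin M' _
    intro z _
    exact h1 (by trivial : z ∈ (⊤ : IntermediateField Ω F))
  have hp' : PairKod Ω M' e (fun _ => 0) p := ext_up (k := U) (K := M) he hgen1 hp
  have hq' : PairKod M' F f (fun _ => 0) q := ext_up (k := M) (K := L) hf hgen2 hq
  have h1 := hIit M' e f p q (Pool.Agent.Y174.ess_F (k := U) hM hgen1)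
    (Pool.Agent.Y174.trdeg_F (L := U) he hgen1) (Pool.Agent.Y174.trdeg_F (L := M) hf hgen2)
    (kd_iff.2 hp') (kd_iff.2 hq')
  rw [kd_iff, hef] at h1
  -- the descent to `T`
  obtain ⟨g, hg⟩ : ∃ g : L →ₐ[ℂ] F, g = IsScalarTower.toAlgHom ℂ L F := ⟨_, rfl⟩
  have hgv : ∀ z, g z = algebraMap L F z := by
    intro z
    rw [hg]
    rfl
  have eT : T ≃ₐ[ℂ] T.map g := T.equivMap g
  have hTF : Algebra.trdeg ℂ (T.map g) = n := by
    rw [← eT.trdeg_eq, hT]
  have hessTF : Algebra.EssFiniteType ℂ (T.map g) :=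
    (Algebra.EssFiniteType.iff_of_algEquiv eT).1 inferInstance
  have hLF : Algebra.trdeg ℂ F = (d + n : ℕ) := by
    have h2 := trdeg_add_eq ℂ L (A := F)
    rw [hL, trdeg_eq_zero, add_zero] at h2
    exact h2.symm
  have hsup' : Ω ⊔ T.map g = ⊤ := by
    rw [eq_top_iff]
    have h2 : (⊤ : IntermediateField ℂ L) ≤ (Ω ⊔ T.map g).comap g := by
      rw [← hsup, sup_le_iff]
      constructor
      · intro z hz
        change g z ∈ Ω ⊔ T.map g
        rw [hgv]
        exact (le_sup_left : Ω ≤ _) (hUΩ ⟨z, hz⟩)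
      · intro z hz
        change g z ∈ Ω ⊔ T.map g
        exact (le_sup_right : T.map g ≤ _) ⟨z, hz, rfl⟩
    have h3 : (⊤ : IntermediateField Ω F) ≤
        IntermediateField.extendScalars (le_sup_left : Ω ≤ Ω ⊔ T.map g) := by
      rw [← hgen, IntermediateField.adjoin_le_iff]
      rintro _ ⟨z, rfl⟩
      rw [SetLike.mem_coe, IntermediateField.mem_extendScalars, ← hgv]
      exact h2 (by trivial : z ∈ (⊤ : IntermediateField ℂ L))
    intro z _
    exact (IntermediateField.mem_extendScalars _).1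
      (h3 (by trivial : z ∈ (⊤ : IntermediateField Ω F)))
  have h2 := desc_u hsup' hΩd hTF hLF h1
  exact Pool.Agent.Y174.pair_equiv eT.symm hessTF hTF _ _ (fun _ => le_refl _) (fun _ => rfl) h2

end Pool.Agent.U393.IT
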