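import Pool.Agent.U393.IT.Lef

/-!
The Lefschetz principle for Iitaka's inequality, and the inequality in dimension one.
-/

set_option autoImplicit false
set_option linter.overlappingInstances false
set_option linter.unusedSectionVars false

open FF Pool.Agent.W602.GT
open Pool.Agent.Y174 (PairSec PairKod resPl)

namespace Pool.Agent.U393.IT

section

variable {L : Type} [Field L] [Algebra ℂ L] {U T : IntermediateField ℂ L}
  [Algebra.EssFiniteType ℂ U] [Algebra.EssFiniteType ℂ T] {d n : ℕ}

/-- **The Lefschetz principle.** -/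
theorem lef (hsup : U ⊔ T = ⊤) (hU : Algebra.trdeg ℂ U = d)
    (hT : Algebra.trdeg ℂ T = n) (hL : Algebra.trdeg ℂ L = (d + n : ℕ))
    (H : ∀ (K' : Type) [Field K'] [Algebra ℂ K'] [Algebra.EssFiniteType ℂ K'],
      Algebra.trdeg ℂ K' = n → Iit ℂ K')
    (M : IntermediateField U L) (e f p q : ℕ) (hM : Algebra.EssFiniteType U M)
    (he : Algebra.trdeg U M = e) (hf : Algebra.trdeg M L = f)
    (hp : PairKod U M e (fun _ => 0) p) (hq : PairKod M L f (fun _ => 0) q) :
    PairKod ℂ T n (fun _ => 0) (p + q) := by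
  classical
  obtain ⟨Ω0, hΩ0⟩ : ∃ Ω0 : IntermediateField U (AlgebraicClosure L),
    Ω0 = algebraicClosure U (AlgebraicClosure L) := ⟨_, rfl⟩
  have hmem : ∀ z : AlgebraicClosure L, z ∈ Ω0 ↔ IsAlgebraic U z := by
    intro z
    rw [hΩ0]
    exact mem_algebraicClosure_iff
  have hcl : IsAlgClosed Ω0 := by
    rw [hΩ0]
    exact (algebraicClosure.isAlgClosure U (AlgebraicClosure L)).isAlgClosed
  obtain ⟨F, hF⟩ : ∃ F : IntermediateField L (AlgebraicClosure L),
    F = IntermediateField.adjoin L (Ω0 : Set (AlgebraicClosure L)) := ⟨_, rfl⟩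
  have hF0 : ∀ z ∈ Ω0, z ∈ F := by
    intro z hz
    rw [hF]
    exact IntermediateField.subset_adjoin _ _ hz
  obtain ⟨Ω, hΩ⟩ : ∃ Ω : IntermediateField ℂ F,
      ∀ z : F, z ∈ Ω ↔ (z : AlgebraicClosure L) ∈ Ω0 :=
    ⟨(Ω0.restrictScalars ℂ).comap (F.val.restrictScalars ℂ), fun z => Iff.rfl⟩
  let eΩ : Ω0 ≃+* Ω :=
    { toFun := fun z => ⟨⟨z, hF0 z z.2⟩, (hΩ _).2 z.2⟩
      invFun := fun z => ⟨((z : F) : AlgebraicClosure L), (hΩ _).1 z.2⟩
      left_inv := fun z => rfl
      right_inv := fun z => rfl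
      map_mul' := fun a b => rfl
      map_add' := fun a b => rfl }
  have hclΩ : IsAlgClosed Ω := IsAlgClosed.of_ringEquiv Ω0 Ω eΩ
  have hgen : IntermediateField.adjoin Ω (Set.range (algebraMap L F)) = ⊤ := by
    obtain ⟨N, hN⟩ : ∃ N : IntermediateField Ω F,
      N = IntermediateField.adjoin Ω (Set.range (algebraMap L F)) := ⟨_, rfl⟩
    obtain ⟨N', hN'⟩ : ∃ N' : IntermediateField L (AlgebraicClosure L),
        ∀ z, z ∈ N' ↔ ∃ z' ∈ N, (z' : AlgebraicClosure L) = z :=
      ⟨(N.toSubfield.map F.val.toRingHom).toIntermediateField (fun z => ⟨algebraMap L F z, by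
        change algebraMap L F z ∈ N
        rw [hN]
        exact IntermediateField.subset_adjoin _ _ ⟨z, rfl⟩, rfl⟩), fun z => Iff.rfl⟩
    have h1 : F ≤ N' := by
      conv_lhs => rw [hF]
      rw [IntermediateField.adjoin_le_iff]
      intro z hz
      change z ∈ N'
      rw [hN']
      exact ⟨⟨z, hF0 z hz⟩, N.algebraMap_mem ⟨⟨z, hF0 z hz⟩, (hΩ _).2 hz⟩, rfl⟩
    rw [← hN, eq_top_iff]
    intro z _
    obtain ⟨z', hz', h2⟩ := (hN' _).1 (h1 z.2)
    have h3 : z' = z := Subtype.ext h2
    rw [← h3]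
    exact hz'
  refine lef_core hsup hU hT hL Ω (fun z => ?_) hgen H M e f p q hM he hf hp hq
  rw [hΩ, hmem]
  exact isAlgebraic_algebraMap_iff (R := U) (S := F) (A := AlgebraicClosure L)
    (algebraMap F (AlgebraicClosure L)).injective

/-- the inequality for the fibrations over a point and with finite fibres -/
theorem iit_triv (hsup : U ⊔ T = ⊤) (hU : Algebra.trdeg ℂ U = d)
    (hT : Algebra.trdeg ℂ T = n) (hL : Algebra.trdeg ℂ L = (d + n : ℕ))
    (M : IntermediateField U L) (e f p q : ℕ) (hM : Algebra.EssFiniteType U M)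
    (he : Algebra.trdeg U M = e) (hf : Algebra.trdeg M L = f) (h : e = 0 ∨ f = 0)
    (hp : PairKod U M e (fun _ => 0) p) (hq : PairKod M L f (fun _ => 0) q) :
    PairKod U L (e + f) (fun _ => 0) (p + q) := by
  classical
  have hessL : Algebra.EssFiniteType ℂ L := Pool.Agent.U192.PE.ess_prod U T hsup
  have hessUL : Algebra.EssFiniteType U L := Algebra.EssFiniteType.of_comp ℂ U L
  have hU0 : CharZero U := charZero_of_injective_algebraMap (algebraMap ℂ U).injective
  have hessML : Algebra.EssFiniteType M L := Algebra.EssFiniteType.of_comp U M L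
  have hM0 : CharZero M := charZero_of_injective_algebraMap (algebraMap U M).injective
  have hpe := Pool.Agent.R882.UA.kod_le_dim he (kd_iff.2 hp)
  have hqf := Pool.Agent.R882.UA.kod_le_dim hf (kd_iff.2 hq)
  rcases h with h0 | h1
  · -- the base is a point
    subst h0
    have h1 : p = 0 := by omega
    subst h1
    rw [Nat.zero_add, Nat.zero_add]
    have halg : Algebra.IsAlgebraic U M := trdeg_eq_zero_iff.1 (by rw [he]; rfl)
    have hs : Function.Surjective (algebraMap U M) := by
      intro z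
      have h2 : IsAlgebraic U (z : L) :=
        (isAlgebraic_algebraMap_iff (algebraMap M L).injective).2 (halg.isAlgebraic z)
      have h3 := Pool.Agent.U192.PB.closed_in hsup hU hT hL h2
      exact ⟨⟨z, h3⟩, Subtype.ext rfl⟩
    exact kd_from (k := U) (Ω := M) hs hq
  · subst h1
    have h2 : q = 0 := by omega
    subst h2
    rw [Nat.add_zero, Nat.add_zero]
    have halg : Algebra.IsAlgebraic M L := trdeg_eq_zero_iff.1 (by rw [hf]; rfl)
    have hfd : FiniteDimensional M L := by
      obtain ⟨s, hs⟩ := IntermediateField.fg_top M L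
      have h1 : FiniteDimensional M (IntermediateField.adjoin M (s : Set L)) :=
        IntermediateField.finiteDimensional_adjoin fun x _ => (halg.isAlgebraic x).isIntegral
      rw [hs] at h1
      exact h1.equiv IntermediateField.topEquiv.toLinearEquiv
    exact up he hp

end

end Pool.Agent.U393.IT
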