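import Pool.Agent.U393.IT.Lef2
import Pool.Agent.N999.SX.FG

/-!
Iitaka's inequality for the fibrations of the varieties dominated by a product `X × Y`.
-/

set_option autoImplicit false
set_option linter.overlappingInstances false
set_option linter.unusedSectionVars false

open FF Pool.Agent.W602.GT
open Pool.Agent.Y174 (PairSec PairKod resPl)
open Pool.Agent.U192.PE (SecU)

namespace Pool.Agent.U393.IT

section

variable {L : Type} [Field L] [Algebra ℂ L] {U T : IntermediateField ℂ L}
  [Algebra.EssFiniteType ℂ U] [Algebra.EssFiniteType ℂ T] {K : Type} [Field K] [Algebra ℂ K]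
  [Algebra K L] [IsScalarTower ℂ K L] [FiniteDimensional K L]

/-- **The inequality for one fibration of `W`.** -/
theorem main {d n m0 κ : ℕ} (hm0 : 1 ≤ m0) (hsup : U ⊔ T = ⊤) (hU : Algebra.trdeg ℂ U = d)
    (hT : Algebra.trdeg ℂ T = n) (hL : Algebra.trdeg ℂ L = (d + n : ℕ))
    (hKU : IntermediateField.adjoin K (U : Set L) = ⊤) (X : Fin κ → Finset U)
    (hX : IntermediateField.adjoin ℂ (⋃ i, (X i : Set U)) = ⊤)
    {α : Fin (d + 1) → (Fin d → Derivation ℂ U U) → U}
    (hα : ∀ j, SecU K d m0 X {1} (α j)) {G0 : Fin d → Derivation ℂ U U} (hG0 : α 0 G0 ≠ 0)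
    (hind : AlgebraicIndependent ℂ fun j : Fin d => α j.succ G0 / α 0 G0)
    (E : IntermediateField ℂ K) (M : IntermediateField U L)
    (hM : M = IntermediateField.adjoin U (Set.range (algebraMap E L))) {e f e0 p q : ℕ}
    (he : Algebra.trdeg ℂ E = e) (hf : Algebra.trdeg E K = f) (he0 : Algebra.trdeg U M = e0)
    (hI : (∀ f0 p' q' : ℕ, e0 + f0 = n → Algebra.trdeg M L = f0 →
        KodGe U M e0 (fun _ => False) p' → KodGe M L f0 (fun _ => False) q' →
        KodGe U L n (fun _ => False) (p' + q')) ∨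
      (∀ (K' : Type) [Field K'] [Algebra ℂ K'] [Algebra.EssFiniteType ℂ K'],
        Algebra.trdeg ℂ K' = n → Iit ℂ K') ∨ e0 = 0 ∨ e0 = n)
    (hp : KodGe ℂ E e (fun _ => False) p) (hq : KodGe E K f (fun _ => False) q) :
    ∃ c, e = e0 + c ∧ c ≤ d ∧ KodGe ℂ K (d + n) (fun _ => False) (max p c + max q (d - c)) := by
  classical
  have hessL : Algebra.EssFiniteType ℂ L := Pool.Agent.U192.PE.ess_prod U T hsup
  have hessK : Algebra.EssFiniteType ℂ K := Pool.Agent.TH466.QG.ess_below (K := L)
  have hessE : Algebra.EssFiniteType ℂ E := Pool.Agent.N999.SX.ess_any E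
  have hUL : Algebra.trdeg U L = n := Pool.Agent.Y174.trdeg_LK hU hL
  obtain ⟨c, hc, hcd, hY⟩ := chain (E := E) (K := K) (U := U) (L := L) hU hUL he hf M hM he0
    (Q := fun b => PairKod ℂ T n (fun _ => 0) b)
    (fun f0 p' q' hess hf0 hef hp' hq' => by
      rcases hI with h | h | h | h
      · have h1 := h f0 p' q' hef hf0 (kd_iff.2 hp') (kd_iff.2 hq')
        exact desc hsup hU hT hL (kd_iff.1 h1)
      · exact lef hsup hU hT hL h M e0 f0 p' q' hess he0 hf0 hp' hq'
      · have h1 := iit_triv hsup hU hT hL M e0 f0 p' q' hess he0 hf0 (Or.inl h) hp' hq'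
        rw [hef] at h1
        exact desc hsup hU hT hL h1
      · have h1 := iit_triv hsup hU hT hL M e0 f0 p' q' hess he0 hf0 (Or.inr (by omega)) hp' hq'
        rw [hef] at h1
        exact desc hsup hU hT hL h1) hp hq
  refine ⟨c, hc, hcd, ?_⟩
  have h1 := Pool.Agent.U192.PE.kod_prod (K := K) U T hsup hU hT hL hKU X hX
    (δ := fun _ => 0) (δT := fun _ => 0) (fun _ => le_refl _) (fun _ _ => zero_le_one)
    (Pool.Agent.U393.UT.ge_zero U T) hm0 hα hG0 hind hY
  have h2 : d + ((p - c) + (q - (d - c))) = max p c + max q (d - c) := by omega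
  rw [h2] at h1
  exact kd_iff.2 h1

end

end Pool.Agent.U393.IT
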