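import Pool.Agent.U393.IT.Same
import Pool.Agent.U192.PB.Main

/-!
Functions on the base change of a variety to a field which is not finitely generated.
-/

set_option autoImplicit false
set_option linter.overlappingInstances false
set_option linter.unusedSectionVars false

open FF Pool.Agent.W603.LV MvPolynomial Pool.Agent.TH122.AB
open Pool.Agent.W602.GT (DerReg Divisorial)
open Pool.Agent.W619.TW (RR)
open Pool.Agent.U192.PB

namespace Pool.Agent.U393.IT

section

variable {L : Type} [Field L] [Algebra ℂ L] {U T : IntermediateField ℂ L} {d n : ℕ}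

/-- **Functions on the product.** A function which is regular at the divisors which dominate both
factors is a polynomial in the functions on the factors. -/
theorem mem_ring_u [hess : Algebra.EssFiniteType U L] (hsup : U ⊔ T = ⊤) (hU : Algebra.trdeg ℂ U = d)
    (hL : Algebra.trdeg ℂ L = (d + n : ℕ)) {t : Fin n → T} (ht : IsTranscendenceBasis ℂ t)
    {E : Fin n → Derivation U L L} {E' : Fin n → Derivation ℂ T T}
    (hE : ∀ i j, E i (t j : L) = if i = j then 1 else 0)
    (hEE : ∀ i (z : T), E i (z : L) = (E' i z : L)) {f : L}
    (hf : ∀ Q : Place U L, Divisorial n Q → (∀ τ : T, Q.Reg (τ : L)) →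
      (∀ i, DerReg Q (E i)) → Ge Q 0 f) : f ∈ RR T U := by
  classical
  have hbas := basis_over hsup hU hL ht
  have hc0 : CharZero U := charZero_of_injective_algebraMap (algebraMap ℂ U).injective
  let W : IntermediateField U L := IntermediateField.adjoin U (Set.range fun i => (t i : L))
  have hfd : FiniteDimensional W L := Pool.Agent.W824.PG.fin_adj hess _ hbas
  have htow : IsScalarTower ℂ W L := IsScalarTower.of_algebraMap_eq fun _ => rfl
  obtain ⟨X, hX⟩ : ∃ X : Fin n → W, ∀ j, (X j : L) = (t j : L) :=
    ⟨fun j => ⟨(t j : L), IntermediateField.subset_adjoin U _ ⟨j, rfl⟩⟩, fun _ => rfl⟩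
  have hgens : Gens (k := U) X :=
    Pool.Agent.Y172.gens_of (Z := fun i => (t i : L)) hbas.1 (E := W) rfl hX
  -- the small field
  let N : IntermediateField ℂ T := IntermediateField.adjoin ℂ (Set.range t)
  have hNT : Algebra.IsAlgebraic N T := ht.isAlgebraic_field
  have hNW : ∀ c : N, ((c : T) : L) ∈ W := by
    have h3 : N.map T.val ≤ W.restrictScalars ℂ := by
      rw [IntermediateField.adjoin_map, IntermediateField.adjoin_le_iff]
      rintro _ ⟨_, ⟨i, rfl⟩, rfl⟩
      exact IntermediateField.subset_adjoin U _ ⟨i, rfl⟩
    intro c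
    exact h3 ⟨c, c.2, rfl⟩
  let φ : N →+* W :=
    { toFun := fun c => ⟨((c : T) : L), hNW c⟩
      map_one' := rfl
      map_mul' := fun _ _ => rfl
      map_zero' := rfl
      map_add' := fun _ _ => rfl }
  let iNW : Algebra N W := φ.toAlgebra
  have hNWL : IsScalarTower N W L := IsScalarTower.of_algebraMap_eq fun _ => rfl
  have hTint : ∀ τ : T, IsIntegral N (τ : L) := fun τ =>
    (hNT.isAlgebraic τ).isIntegral.algebraMap
  -- the basis
  have hspan : ⊤ ≤ Submodule.span W (T : Set L) := by
    have h1 : IntermediateField.adjoin W (T : Set L) = ⊤ := by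
      rw [eq_top_iff]
      have h2 : (⊤ : IntermediateField ℂ L) ≤
          (IntermediateField.adjoin W (T : Set L)).restrictScalars ℂ := by
        rw [← hsup, sup_le_iff]
        constructor
        · intro y hy
          exact (IntermediateField.adjoin W (T : Set L)).algebraMap_mem
            ⟨y, W.algebraMap_mem ⟨y, hy⟩⟩
        · intro y hy
          exact IntermediateField.subset_adjoin W _ hy
      intro y _
      exact h2 (by trivial : y ∈ (⊤ : IntermediateField ℂ L))
    have h2 := IntermediateField.adjoin_toSubalgebra_of_isAlgebraic (F := W) (E := L)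
      (S := (T : Set L)) fun x _ => Algebra.IsAlgebraic.isAlgebraic x
    rw [h1, IntermediateField.top_toSubalgebra] at h2
    have h3 := Algebra.adjoin_eq_span W (T : Set L)
    rw [← h2, Algebra.top_toSubmodule] at h3
    have h4 : (Submonoid.closure (T : Set L) : Set L) = (T : Set L) := by
      have : (Submonoid.closure (T : Set L)) = T.toSubfield.toSubmonoid := by
        apply le_antisymm
        · rw [Submonoid.closure_le]; exact fun z hz => hz
        · exact fun z hz => Submonoid.subset_closure hz
      rw [this]
      rfl
    rw [h4] at h3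
    exact h3.le
  obtain ⟨δ, b, hb⟩ := exists_basis_mem (K := W) (T : Set L) hspan
  have hbint : ∀ j, IsIntegral N (b j) := fun j => hTint ⟨b j, hb j⟩
  have hpoly : ∀ P : MvPolynomial (Fin n) U, ((aeval X P : W) : L) =
      aeval (fun i => (t i : L)) P := by
    intro P
    have h1 := (MvPolynomial.aeval_algebraMap_apply L X P).symm
    have h2 : (fun j => algebraMap W L (X j)) = fun i => (t i : L) := funext hX
    change (algebraMap W L) (MvPolynomial.aeval X P) = _
    rw [h1]
    congr 1
    exact congrArg _ h2
  have hmap : ∀ q : MvPolynomial (Fin n) ℂ, ((aeval X (map (algebraMap ℂ U) q) : W) : L) =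
      ((aeval t q : T) : L) := by
    intro q
    rw [hpoly, aeval_map_algebraMap]
    exact MvPolynomial.aeval_algebraMap_apply L t q
  -- the coefficients
  have hcoef : ∀ j, ∃ (P : MvPolynomial (Fin n) U) (q : MvPolynomial (Fin n) ℂ), q ≠ 0 ∧
      b.equivFun f j = aeval X P / aeval X (map (algebraMap ℂ U) q) := by
    intro j
    refine frac_of_reg (k0 := ℂ) hgens fun p hp hpq v hv => ?_
    have hvN : ∀ c : N, v.Reg (algebraMap N W c) := by
      intro c
      obtain ⟨a, a', ha', hc⟩ := (Pool.Agent.Y172.gens_of (Z := t) ht.1 (E := N) rfl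
        (X := fun j => (⟨t j, IntermediateField.subset_adjoin ℂ _ ⟨j, rfl⟩⟩ : N))
        (fun _ => rfl)).gen c
      have hcoe : ∀ q : MvPolynomial (Fin n) ℂ, algebraMap N W (aeval
          (fun j => (⟨t j, IntermediateField.subset_adjoin ℂ _ ⟨j, rfl⟩⟩ : N)) q) =
          aeval X (map (algebraMap ℂ U) q) := by
        intro q
        apply Subtype.ext
        rw [hmap]
        have h1 := MvPolynomial.aeval_algebraMap_apply T
          (fun j => (⟨t j, IntermediateField.subset_adjoin ℂ _ ⟨j, rfl⟩⟩ : N)) q
        have h2 : (aeval t q : T) = ((aeval (fun j => (⟨t j, IntermediateField.subset_adjoin ℂ _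
          ⟨j, rfl⟩⟩ : N)) q : N) : T) := h1
        rw [h2]
        rfl
      rw [hc, map_div₀, hcoe, hcoe]
      have h1 : map (algebraMap ℂ U) a' ≠ 0 := fun h0 => ha'
        (((map_injective _ (algebraMap ℂ U).injective).eq_iff' (map_zero _)).1 h0)
      have h2 := (hv.2 _ h1).2.2 (hpq a' ha')
      by_cases h3 : map (algebraMap ℂ U) a = 0
      · rw [h3, map_zero, zero_div]
        exact Or.inl rfl
      · right
        rw [v.ord_div (hgens.ne h3) (hgens.ne h1), h2, sub_zero]
        exact (hv.2 _ h3).1
    refine coord_reg b hbint hvN (fun Q e hQ => ?_) j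
    refine hf Q ?_ (fun τ => over_reg_alg hQ hvN (hTint τ)) fun i => ?_
    · exact Pool.Agent.Y172.divisorial_up hQ (adic_div hp hgens hv)
    · refine der_reg b hbint hvN (fun z hz => ?_) (fun l => ?_) hQ
      · -- the partial derivatives
        obtain ⟨P, R, hR, hz1⟩ := reg_frac hgens hp hv hz
        have hR0 : R ≠ 0 := by
          rintro rfl
          exact hR (dvd_zero _)
        have hder : ∀ G : MvPolynomial (Fin n) U, E i ((aeval X G : W) : L) =
            ((aeval X (pderiv i G) : W) : L) := by
          intro G
          rw [hpoly, hpoly]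
          induction G using MvPolynomial.induction_on with
          | C c =>
            rw [aeval_C, pderiv_C, map_zero]
            exact (E i).map_algebraMap c
          | add p q hp hq => rw [map_add, map_add, map_add, hp, hq, map_add]
          | mul_X p l hp =>
            rw [map_mul, aeval_X, (E i).leibniz, hp, hE, smul_eq_mul, smul_eq_mul,
              Derivation.leibniz, smul_eq_mul, smul_eq_mul, map_add, map_mul, map_mul, aeval_X,
              pderiv_X]
            by_cases h : i = l
            · subst h
              rw [if_pos rfl, Pi.single_eq_same, map_one]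
            · rw [if_neg h, Pi.single_eq_of_ne (Ne.symm h), map_zero]
        have hR1 : ((aeval X R : W) : L) ≠ 0 := by
          rw [Ne, ZeroMemClass.coe_eq_zero]
          exact hgens.ne hR0
        refine ⟨((aeval X R)⁻¹) ^ 2 * (aeval X R * aeval X (pderiv i P) -
          aeval X P * aeval X (pderiv i R)), ?_, ?_⟩
        · have h1 : algebraMap W L z = ((aeval X P : W) : L) / ((aeval X R : W) : L) := by
            rw [hz1, map_div₀]
            rfl
          rw [h1, (E i).leibniz_div, hder, hder]
          rfl
        · have h2 := (hv.2 _ hR0).2.2 hR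
          have h3 : ∀ G : MvPolynomial (Fin n) U, Ge v 0 (aeval X G) := by
            intro G
            by_cases hG : G = 0
            · rw [hG, map_zero]
              exact Or.inl rfl
            · exact Or.inr (hv.2 G hG).1
          have h4 : Ge v 0 (((aeval X R)⁻¹) ^ 2 : W) := by
            right
            rw [v.ord_pow, v.ord_inv, h2]
            simp
          have h5 := (h3 R).mul (h3 (pderiv i P))
          have h6 := (h3 P).mul (h3 (pderiv i R))
          have h7 := h4.mul (h5.add h6.neg)
          rw [zero_add, zero_add] at h7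
          rw [sub_eq_add_neg]
          exact h7
      · have h1 : E i (b l) = ((E' i ⟨b l, hb l⟩ : T) : L) := hEE i ⟨b l, hb l⟩
        rw [h1]
        exact hTint _
  rw [← b.sum_equivFun f]
  refine Subalgebra.sum_mem _ fun j _ => ?_
  obtain ⟨P, q, hq, he⟩ := hcoef j
  rw [he, Algebra.smul_def, map_div₀]
  refine mul_mem ?_ (RR.left (hb j))
  rw [div_eq_mul_inv]
  refine mul_mem ?_ ?_
  · change ((aeval X P : W) : L) ∈ RR T U
    rw [hpoly]
    clear he
    induction P using MvPolynomial.induction_on with
    | C c =>
      rw [aeval_C]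
      exact (RR T U).algebraMap_mem c
    | add p q hp hq =>
      rw [map_add]
      exact add_mem hp hq
    | mul_X p l hp =>
      rw [map_mul, aeval_X]
      exact mul_mem hp (RR.left (t l).2)
  · change (((aeval X (map (algebraMap ℂ U) q) : W) : L))⁻¹ ∈ RR T U
    rw [hmap]
    exact RR.left (T.inv_mem (aeval t q : T).2)

end

end Pool.Agent.U393.IT
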