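import Pool.Agent.U393.IT.Ring
import Pool.Agent.U192.PT.Down

/-!
Pluricanonical forms on the base change of a variety to a field which is not finitely generated.
-/

set_option autoImplicit false
set_option linter.overlappingInstances false
set_option linter.unusedSectionVars false

open FF IntermediateField Pool.Agent.W619.PQ Pool.Agent.W603.LV Pool.Agent.Y172
open Pool.Agent.W602.GT (Divisorial DerReg IsPluri KodGe)
open Pool.Agent.W619.TW (HasIndep RR)
open Pool.Agent.Y174 (PairSec PairKod PairNum IsPull IsPullFib LiesOn resPl)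
open Pool.Agent.U192.PB
open Pool.Agent.U192.NM (dg pol)
open Pool.Agent.U192.PE
open Pool.Agent.U192.PN (IsProd DivBd fib_of num_fib easy_pair divBd_pull exists_prod prod_ord
  HorReg PReg PairNeg horReg_ge coef_sec)

namespace Pool.Agent.U393.IT

section

variable {L : Type} [Field L] [Algebra ℂ L] {U T : IntermediateField ℂ L} {d n : ℕ}

/-- **Base change for sections.** -/
theorem base_values_u [Algebra.EssFiniteType U L] (hsup : U ⊔ T = ⊤) (hU : Algebra.trdeg ℂ U = d)
    (hT : Algebra.trdeg ℂ T = n) (hL : Algebra.trdeg ℂ L = (d + n : ℕ))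
    {δU : Place U L → ℝ} {δT : Place ℂ T → ℝ}
    (hδ0 : ∀ Q : Place U L, Divisorial n Q → (∀ τ : T, Q.Reg (τ : L)) → δU Q ≤ 0)
    (hδ1 : ∀ (Q : Place U L) (v : Place ℂ T), Divisorial n Q → Divisorial n v →
      (∀ τ : T, Q.ord (τ : L) = v.ord τ) → δU Q ≤ δT v)
    {t : Fin n → T} (ht : IsTranscendenceBasis ℂ t)
    {E : Fin n → Derivation U L L} {E' : Fin n → Derivation ℂ T T}
    (hE : ∀ i j, E i (t j : L) = if i = j then 1 else 0)
    (hE' : ∀ i j, E' i (t j) = if i = j then 1 else 0)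
    (hEE : ∀ i (z : T), E i (z : L) = (E' i z : L))
    {S : Finset L} {ST : Finset T} {q : L} (hq0 : q ≠ 0) (hqS : ∀ s ∈ S, q * s ∈ RR T U)
    (hS : ∀ s ∈ S, ∃ (r : ℕ) (β : Fin r → U) (μ : Fin r → T), (∀ i, μ i ∈ ST) ∧
      q * s = ∑ i, (β i : L) * (μ i : L))
    {m : ℕ} {ω : (Fin n → Derivation U L L) → L} (hω : PairSec U L n δU S m 1 ω) :
    ∃ (l : ℕ) (β : Fin l → U) (μ : Fin l → T), q * ω E = ∑ i, (β i : L) * (μ i : L) ∧
      ∀ i, PairSec ℂ T n δT ST m 1 (fun G => (Matrix.of fun i j => G i (t j)).det ^ m * μ i) := by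
  classical
  have h := lin_of hsup hU hT hL
  have hbas := basis_over hsup hU hL ht
  have hring : q * ω E ∈ RR T U := by
    refine mem_ring_u hsup hU hL ht hE hEE fun Q hQ hQT hQE => ?_
    have h1 := hω.2 Q hQ E fun i => hQE i
    rcases h1 with h1 | ⟨s, hs, hs0, h1⟩
    · left
      rw [h1, mul_zero]
    · by_cases h2 : ω E = 0
      · left
        rw [h2, mul_zero]
      have h3 := (reg_ring hQT (hqS s hs)).resolve_left (mul_ne_zero hq0 hs0)
      rw [Q.ord_mul hq0 hs0] at h3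
      right
      rw [Q.ord_mul hq0 h2]
      have h4 := mul_nonpos_of_nonneg_of_nonpos (Nat.cast_nonneg (α := ℝ) m) (hδ0 Q hQ hQT)
      have h5 : (Q.ord s : ℝ) ≤ Q.ord (ω E) := by
        push_cast at h1
        linarith
      have h6 : Q.ord s ≤ Q.ord (ω E) := by exact_mod_cast h5
      linarith
  obtain ⟨l, β, μ, hβ, hf⟩ := exists_expand hring
  exact ⟨l, β, μ, hf, fun i => coef_sec h ht hbas hE hE' hEE hq0 hS
    (fun v hv => hδ1 (UF h v) v (UF_div h hv) hv fun τ => UU_M h v τ) hω hβ hf i⟩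

end

/-- **The Kodaira dimension of `Y` is at least the one of its base change.** -/
theorem desc_u {L : Type} [Field L] [Algebra ℂ L] {U T : IntermediateField ℂ L}
    [Algebra.EssFiniteType U L] {d n b : ℕ}
    (hsup : U ⊔ T = ⊤) (hU : Algebra.trdeg ℂ U = d) (hT : Algebra.trdeg ℂ T = n)
    (hL : Algebra.trdeg ℂ L = (d + n : ℕ)) (hk : PairKod U L n (fun _ => 0) b) :
    PairKod ℂ T n (fun _ => 0) b := by
  classical
  have hU0 : CharZero U := charZero_of_injective_algebraMap (algebraMap ℂ U).injective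
  obtain ⟨N, hN, ω, hω, D1, hD1, hind⟩ := hk
  obtain ⟨u, hu⟩ := Pool.Agent.W636.PG.exists_basis ℂ U d hU
  obtain ⟨t, ht⟩ := Pool.Agent.W636.PG.exists_basis ℂ T n hT
  have hbas := basis_over hsup hU hL ht
  obtain ⟨E, E', hE, hE', hEE⟩ := exists_der_along hsup hU hL ht
  have hcoord : ∀ j, ω j D1 = _ := fun j =>
    Pool.Agent.W636.PG.form_eq U L n N _ hbas E hE (ω j) (hω j).1 D1
  obtain ⟨c, hc⟩ : ∃ c, c = (Matrix.of fun i j => D1 i ((t j : T) : L)).det ^ N := ⟨_, rfl⟩
  have hcoord' : ∀ j, ω j D1 = c * ω j E := by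
    intro j
    rw [hcoord j, hc]
  have hc0 : c ≠ 0 := by
    intro h0
    apply hD1 0
    rw [hcoord', h0, zero_mul]
  have hne : ∀ j, ω j E ≠ 0 := by
    intro j h0
    apply hD1 j
    rw [hcoord', h0, mul_zero]
  have hexp := fun j => base_values_u hsup hU hT hL (δU := fun _ => 0) (δT := fun _ => 0)
    (fun _ _ _ => le_refl _) (fun _ _ _ _ _ => le_refl _) ht hE hE' hEE (S := {1}) (ST := {1})
    (q := 1) one_ne_zero (fun s hs => by
      rw [Finset.mem_singleton.1 hs, one_mul]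
      exact one_mem _) (fun s hs => by
      refine ⟨1, fun _ => 1, fun _ => 1, fun _ => Finset.mem_singleton_self _, ?_⟩
      rw [Finset.mem_singleton.1 hs]
      simp) (sec_jk (hω j))
  choose l β μ hval hsec using hexp
  have h2 : ∃ i, μ 0 i ≠ 0 := by
    by_contra hcon
    push Not at hcon
    apply hne 0
    have h3 := hval 0
    rw [one_mul] at h3
    rw [h3]
    refine Finset.sum_eq_zero fun i _ => ?_
    rw [hcon i]
    simp
  obtain ⟨i0, hi0⟩ := h2
  obtain ⟨R, hR⟩ : ∃ R : Set T, R = {τ | ∃ j i, τ = μ j i / μ 0 i0} := ⟨_, rfl⟩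
  have hmem : ∀ j, (ω j E) / (μ 0 i0 : L) ∈
      U ⊔ IntermediateField.adjoin ℂ ((fun τ : T => (τ : L)) '' R) := by
    intro j
    have h3 := hval j
    rw [one_mul] at h3
    rw [h3, Finset.sum_div]
    refine sum_mem fun i _ => ?_
    rw [mul_div_assoc]
    refine mul_mem ((le_sup_left : U ≤ _) (β j i).2) ((le_sup_right :
      IntermediateField.adjoin ℂ ((fun τ : T => (τ : L)) '' R) ≤ _) ?_)
    refine IntermediateField.subset_adjoin _ _ ⟨μ j i / μ 0 i0, ?_, rfl⟩
    rw [hR]
    exact ⟨j, i, rfl⟩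
  have hind1 : AlgebraicIndependent U fun j : Fin b => ω j.succ E / ω 0 E := by
    have h1 : (fun l : Fin b => ω l.succ E / ω 0 E) = fun l : Fin b => ω l.succ D1 / ω 0 D1 := by
      funext l
      rw [hcoord', hcoord', mul_div_mul_left _ _ hc0]
    rw [h1]
    exact hind
  have hind' : AlgebraicIndependent ℂ (Fin.append (algebraMap U L ∘ u)
      (fun j : Fin b => ω j.succ E / ω 0 E)) := by
    have h1 := hu.1.sumElim_comp hind1
    have h3 : (Fin.append (algebraMap U L ∘ u) (fun j : Fin b => ω j.succ E / ω 0 E)) =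
        Sum.elim (fun j : Fin b => ω j.succ E / ω 0 E) (algebraMap U L ∘ u) ∘
          (finSumFinEquiv.symm.trans (Equiv.sumComm _ _)) := by
      funext i
      refine Fin.addCases (fun c => ?_) (fun j => ?_) i
      · simp
      · simp
    rw [h3]
    exact h1.comp _ (Equiv.injective _)
  obtain ⟨s, hsR, hs⟩ := Pool.Agent.U192.PT.many_ratios hU R hind' (fun j => by
    refine Fin.addCases (fun j => ?_) (fun j => ?_) j
    · rw [Fin.append_left]
      exact (le_sup_left : U ≤ _) (u j).2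
    · rw [Fin.append_right]
      have h3 : ω j.succ E / ω 0 E = (ω j.succ E / (μ 0 i0 : L)) / (ω 0 E / (μ 0 i0 : L)) := by
        have h4 : (μ 0 i0 : L) ≠ 0 := by rwa [Ne, ZeroMemClass.coe_eq_zero]
        rw [div_div_div_cancel_right₀ h4]
      rw [h3]
      exact div_mem (hmem _) (hmem _))
  rw [hR] at hsR
  choose j i hji using hsR
  obtain ⟨Φ, hΦ⟩ : ∃ Φ : T → (Fin n → Derivation ℂ T T) → T, Φ = fun z G =>
    (Matrix.of fun i j => G i (t j)).det ^ N * z := ⟨_, rfl⟩
  have hΦE : ∀ z, Φ z E' = z := by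
    intro z
    rw [hΦ]
    have h5 : (Matrix.of fun i j => E' i (t j)) = (1 : Matrix (Fin n) (Fin n) T) := by
      ext i j
      rw [Matrix.of_apply, hE', Matrix.one_apply]
    change (Matrix.of fun i j => E' i (t j)).det ^ N * z = z
    rw [h5, Matrix.det_one, one_pow, one_mul]
  have hsec' : ∀ j i, PairSec ℂ T n (fun _ => 0) {1} N 0 (Φ (μ j i)) := by
    intro j i
    rw [hΦ]
    exact Pool.Agent.U192.PT.sec_j.2 (hsec j i)
  refine ⟨N, hN, Fin.cons (Φ (μ 0 i0)) fun l => Φ (μ (j l) (i l)), fun l => ?_, E', fun l => ?_,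
    ?_⟩
  · refine Fin.cases ?_ (fun l => ?_) l
    · exact hsec' 0 i0
    · exact hsec' _ _
  · refine Fin.cases ?_ (fun l => ?_) l
    · rw [Fin.cons_zero, hΦE]
      exact hi0
    · rw [Fin.cons_succ, hΦE]
      intro h0
      apply hs.ne_zero l
      rw [hji l, h0, zero_div]
  · have h3 : (fun l : Fin b => (Fin.cons (Φ (μ 0 i0)) (fun l => Φ (μ (j l) (i l))) :
        Fin (b + 1) → (Fin n → Derivation ℂ T T) → T) l.succ E' /
        (Fin.cons (Φ (μ 0 i0)) (fun l => Φ (μ (j l) (i l))) :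
        Fin (b + 1) → (Fin n → Derivation ℂ T T) → T) 0 E') = s := by
      funext l
      rw [Fin.cons_succ, Fin.cons_zero, hΦE, hΦE, hji l]
    rw [h3]
    exact hs

end Pool.Agent.U393.IT
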