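import Pool.Agent.U393.IT.Ext

/-!
Isomorphic base fields.
-/

set_option autoImplicit false
set_option linter.overlappingInstances false
set_option linter.unusedSectionVars false

open FF Pool.Agent.W602.GT
open Pool.Agent.Y174 (PairSec PairKod resPl)

namespace Pool.Agent.U393.IT

section

variable {k Ω F : Type} [Field k] [CharZero k] [Field Ω] [Field F] [Algebra k Ω] [Algebra Ω F]
  [Algebra k F] [IsScalarTower k Ω F]

theorem sum_res {n : ℕ} (A : Fin n → F) (D : Fin n → Derivation Ω F F) :
    (∑ j, A j • D j).restrictScalars k = ∑ j, A j • (D j).restrictScalars k := by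
  ext f
  rw [Pool.Agent.W721.PG.EFF2.der_sum]
  change (∑ j, A j • D j) f = _
  rw [Pool.Agent.W721.PG.EFF2.der_sum]
  rfl

/-- an isomorphism of the base fields, from the smaller to the bigger field -/
theorem kd_to [Algebra.IsAlgebraic k Ω] {n h : ℕ} (hk : PairKod k F n (fun _ => 0) h) :
    PairKod Ω F n (fun _ => 0) h := by
  classical
  obtain ⟨m, hm, ω, hω, D, hD, hind⟩ := hk
  choose up hup using fun D : Derivation k F F => exists_der (Ω := Ω) D
  have hval : ∀ G : Fin n → Derivation k F F,
      (fun i => (up (G i)).restrictScalars k) = G := by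
    intro G
    funext i
    ext f
    exact hup (G i) f
  refine ⟨m, hm, fun l G => ω l fun i => (G i).restrictScalars k, fun l => ⟨fun A G => ?_,
    fun v hv G hG => ?_⟩, fun i => up (D i), fun l => ?_, ?_⟩
  · have h1 : (fun i => (∑ j, A i j • G j).restrictScalars k) =
        fun i => ∑ j, A i j • (G j).restrictScalars k := funext fun i => sum_res _ _
    change ω l (fun i => (∑ j, A i j • G j).restrictScalars k) = _
    rw [h1]
    exact (hω l).1 A _
  · have hv' : Pool.Agent.W619.PQ.IsDivisorial (resPl k v) n := by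
      obtain ⟨y, hy⟩ := hv
      exact ⟨y, Pool.Agent.Y174.ResInd.down (k := k) hy⟩
    exact (hω l).2 (resPl k v) hv' _ (fun i f hf => hG i f hf)
  · change ω l (fun i => (up (D i)).restrictScalars k) ≠ 0
    rw [hval]
    exact hD l
  · change AlgebraicIndependent Ω fun l : Fin h =>
      ω l.succ (fun i => (up (D i)).restrictScalars k) /
        ω 0 (fun i => (up (D i)).restrictScalars k)
    rw [hval]
    exact hind.extendScalars Ω

/-- an isomorphism of the base fields, from the bigger to the smaller field -/
theorem kd_from (hs : Function.Surjective (algebraMap k Ω)) {n h : ℕ}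
    (hk : PairKod Ω F n (fun _ => 0) h) : PairKod k F n (fun _ => 0) h := by
  classical
  have halg : Algebra.IsAlgebraic k Ω := ⟨fun z => by
    obtain ⟨c, rfl⟩ := hs z
    exact isAlgebraic_algebraMap c⟩
  obtain ⟨m, hm, ω, hω, D, hD, hind⟩ := hk
  choose up hup using fun D : Derivation k F F => exists_der (Ω := Ω) D
  have hval : ∀ G : Fin n → Derivation Ω F F,
      (fun i => up ((G i).restrictScalars k)) = G := by
    intro G
    funext i
    ext f
    exact hup _ f
  refine ⟨m, hm, fun l G => ω l fun i => up (G i), fun l => ⟨fun A G => ?_,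
    fun v hv G hG => ?_⟩, fun i => (D i).restrictScalars k, fun l => ?_, ?_⟩
  · have h1 : (fun i => up (∑ j, A i j • G j)) = fun i => ∑ j, A i j • up (G j) := by
      funext i
      ext f
      rw [hup, Pool.Agent.W721.PG.EFF2.der_sum, Pool.Agent.W721.PG.EFF2.der_sum]
      exact Finset.sum_congr rfl fun j _ => by rw [hup]
    change ω l (fun i => up (∑ j, A i j • G j)) = _
    rw [h1]
    exact (hω l).1 A _
  · obtain ⟨v', hv'⟩ : ∃ v' : Place Ω F, v'.ord = v.ord :=
      ⟨{ ord := v.ord
         ord_zero := v.ord_zero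
         ord_mul := v.ord_mul
         ord_add := v.ord_add
         ord_const := fun {c} hc => by
          obtain ⟨c', rfl⟩ := hs c
          rw [← IsScalarTower.algebraMap_apply k Ω F]
          exact v.ord_const fun h => hc (by rw [h, map_zero])
         surj := v.surj }, rfl⟩
    have hreg : ∀ f, v'.Reg f ↔ v.Reg f := by
      intro f
      unfold Place.Reg
      rw [hv']
    have hdiv : Pool.Agent.W619.PQ.IsDivisorial v' n := by
      obtain ⟨y, hy⟩ := hv
      refine ⟨y, fun p hp => ?_⟩
      obtain ⟨p', rfl⟩ := MvPolynomial.map_surjective _ hs p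
      rw [MvPolynomial.aeval_map_algebraMap, hv']
      exact hy p' fun h => hp (by rw [h, map_zero])
    have h1 := (hω l).2 v' hdiv (fun i => up (G i)) (fun i f hf => by
      rw [hup, hreg]
      exact hG i f ((hreg f).1 hf))
    rw [hv'] at h1
    exact h1
  · change ω l (fun i => up ((D i).restrictScalars k)) ≠ 0
    rw [hval]
    exact hD l
  · change AlgebraicIndependent k fun l : Fin h =>
      ω l.succ (fun i => up ((D i).restrictScalars k)) /
        ω 0 (fun i => up ((D i).restrictScalars k))
    rw [hval]
    exact hind.restrictScalars (algebraMap k Ω).injective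

end

section

/-- transport of Iitaka's inequality to an isomorphic base field -/
theorem iit_of_equiv {Ω F : Type} [Field Ω] [Field F] [Algebra Ω F] [Algebra.EssFiniteType Ω F]
    (φ : ℂ ≃+* Ω) {s : ℕ} (htr : Algebra.trdeg Ω F = s)
    (H : ∀ (K' : Type) [Field K'] [Algebra ℂ K'] [Algebra.EssFiniteType ℂ K'],
      Algebra.trdeg ℂ K' = s → Iit ℂ K') : Iit Ω F := by
  classical
  let _ : Algebra ℂ Ω := φ.toRingHom.toAlgebra
  let _ : Algebra ℂ F := ((algebraMap Ω F).comp φ.toRingHom).toAlgebra
  have _ : IsScalarTower ℂ Ω F := IsScalarTower.of_algebraMap_eq fun _ => rfl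
  have hs : Function.Surjective (algebraMap ℂ Ω) := φ.surjective
  have halg : Algebra.IsAlgebraic ℂ Ω := ⟨fun z => by
    obtain ⟨c, rfl⟩ := hs z
    exact isAlgebraic_algebraMap c⟩
  have hft : Algebra.FiniteType ℂ Ω := by
    refine Algebra.FiniteType.of_surjective (Algebra.ofId ℂ Ω) hs
  have hessO : Algebra.EssFiniteType ℂ Ω := inferInstance
  have hessF : Algebra.EssFiniteType ℂ F := Algebra.EssFiniteType.comp ℂ Ω F
  have hO0 : CharZero Ω := charZero_of_injective_algebraMap (algebraMap ℂ Ω).injective
  have htrF : Algebra.trdeg ℂ F = s := by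
    have h1 := trdeg_add_eq ℂ Ω (A := F)
    rw [trdeg_eq_zero, zero_add, htr] at h1
    exact h1.symm
  intro M e f p q hM he hf hp hq
  have hI := H F htrF
  let _ : Algebra ℂ M := ((algebraMap Ω M).comp φ.toRingHom).toAlgebra
  have _ : IsScalarTower ℂ Ω M := IsScalarTower.of_algebraMap_eq fun _ => rfl
  rw [kd_iff] at hp
  have hp' := kd_from (k := ℂ) hs hp
  have h1 := hI (M.restrictScalars ℂ) e f p q (Algebra.EssFiniteType.comp ℂ Ω M) (by
      have h1 := trdeg_add_eq ℂ Ω (A := M)
      rw [trdeg_eq_zero, zero_add, he] at h1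
      exact h1.symm) hf (kd_iff.2 hp') hq
  rw [kd_iff] at h1 ⊢
  exact kd_to h1

end

end Pool.Agent.U393.IT
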