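import Pool.Agent.U393.IT.Main

/-!
Viehweg's inequality for the fibrations of the varieties dominated by a product `X × Y`.
-/

set_option autoImplicit false
set_option linter.overlappingInstances false
set_option linter.unusedSectionVars false

open FF Pool.Agent.W602.GT
open Pool.Agent.Y174 (PairSec PairKod resPl)
open Pool.Agent.U192.PE (SecU)

namespace Pool.Agent.U393.IT

section

variable {E U M : Type} [Field E] [Field U] [Field M] [Algebra ℂ E] [Algebra ℂ U]
  [Algebra ℂ M] [Algebra E M] [Algebra U M] [IsScalarTower ℂ E M] [IsScalarTower ℂ U M]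

/-- the dimensions -/
theorem base_dim {e d e0 g : ℕ}
    (hE : Algebra.trdeg ℂ E = e) (hU : Algebra.trdeg ℂ U = d) (hM : Algebra.trdeg U M = e0)
    (hg : Algebra.trdeg E M = g)
    (hgen : IntermediateField.adjoin E (Set.range (algebraMap U M)) = ⊤) :
    g ≤ d ∧ e + g = d + e0 := by
  classical
  have hn : e + g = d + e0 := by
    have h1 := trdeg_add_eq ℂ E (A := M)
    have h2 := trdeg_add_eq ℂ U (A := M)
    rw [hE, hg] at h1
    rw [hU, hM, ← h1] at h2
    exact_mod_cast h2.symm
  have halg0 : Algebra.IsAlgebraic (Algebra.adjoin E (Set.range (algebraMap U M))) M := by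
    refine Pool.Agent.W619.PQ.alg_adjoin fun z => ?_
    have h3 : z ∈ IntermediateField.adjoin E (Set.range (algebraMap U M)) := by
      rw [hgen]
      exact IntermediateField.mem_top
    exact isAlgebraic_algebraMap
      (⟨z, h3⟩ : IntermediateField.adjoin E (Set.range (algebraMap U M)))
  obtain ⟨B, hBU, hB⟩ := exists_isTranscendenceBasis_subset (R := E) (A := M)
    (Set.range (algebraMap U M))
  have hu : ∀ b : B, ∃ z : U, algebraMap U M z = b := fun b => hBU b.2
  choose u hu using hu
  have hcB : Cardinal.mk B = g := by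
    rw [← hg]
    exact hB.cardinalMk_eq_trdeg
  have huind : AlgebraicIndependent ℂ u := by
    have h1 : AlgebraicIndependent ℂ fun b : B => (b : M) := hB.1.restrictScalars
      (algebraMap ℂ E).injective
    have h2 : (fun b : B => (b : M)) = (IsScalarTower.toAlgHom ℂ U M) ∘ u := by
      funext b
      exact (hu b).symm
    rw [h2] at h1
    exact (AlgHom.algebraicIndependent_iff (IsScalarTower.toAlgHom ℂ U M)
      (algebraMap U M).injective).1 h1
  have h2 := huind.cardinalMk_le_trdeg
  rw [hcB, hU] at h2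
  exact ⟨by exact_mod_cast h2, hn⟩

end

section

variable {E K U L : Type} [Field E] [Field K] [Field U] [Field L] [Algebra ℂ E] [Algebra ℂ K]
  [Algebra ℂ U] [Algebra ℂ L] [Algebra E K] [Algebra E L] [Algebra K L] [Algebra U L]
  [IsScalarTower ℂ E K] [IsScalarTower ℂ E L] [IsScalarTower ℂ K L] [IsScalarTower ℂ U L]
  [IsScalarTower E K L]

/-- **The fibres.** -/
theorem chain2 [Algebra.EssFiniteType ℂ E] [Algebra.EssFiniteType ℂ K] [Algebra.EssFiniteType ℂ U]
    [Algebra.EssFiniteType ℂ L]
    [FiniteDimensional K L] {d s e f e0 q : ℕ} (hU : Algebra.trdeg ℂ U = d)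
    (hL : Algebra.trdeg U L = s) (hE : Algebra.trdeg ℂ E = e) (hf : Algebra.trdeg E K = f)
    (M : IntermediateField U L) (hM : M = IntermediateField.adjoin U (Set.range (algebraMap E L)))
    (he0 : Algebra.trdeg U M = e0) (hq : KodGe E K f (fun _ => False) q) :
    ∃ c f0 : ℕ, e = e0 + c ∧ c ≤ d ∧ e0 + f0 = s ∧ Algebra.trdeg M L = f0 ∧
      PairKod M L f0 (fun _ => 0) (q - (d - c)) := by
  classical
  have hE0 : CharZero E := charZero_of_injective_algebraMap (algebraMap ℂ E).injective
  rw [kd_iff] at hq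
  have hessEK : Algebra.EssFiniteType E K := Algebra.EssFiniteType.of_comp ℂ E K
  have hessEL : Algebra.EssFiniteType E L := Algebra.EssFiniteType.of_comp ℂ E L
  have hessUL : Algebra.EssFiniteType U L := Algebra.EssFiniteType.of_comp ℂ U L
  have hqL : PairKod E L f (fun _ => 0) q := up hf hq
  have hfL : Algebra.trdeg E L = f := by
    have h1 := trdeg_add_eq E K (A := L)
    have h2 : Algebra.trdeg K L = 0 := trdeg_eq_zero
    rw [hf, h2, add_zero] at h1
    exact h1.symm
  have hEM : ∀ z : E, algebraMap E L z ∈ M := by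
    intro z
    rw [hM]
    exact IntermediateField.subset_adjoin _ _ ⟨z, rfl⟩
  let _ : Algebra E M := ((algebraMap E L).codRestrict M hEM).toAlgebra
  have hval : ∀ z : E, ((algebraMap E M z : M) : L) = algebraMap E L z := fun z => rfl
  have _ : IsScalarTower E M L := IsScalarTower.of_algebraMap_eq fun z => rfl
  have _ : IsScalarTower ℂ E M := IsScalarTower.of_algebraMap_eq fun z => by
    apply Subtype.ext
    rw [hval, ← IsScalarTower.algebraMap_apply ℂ E L]
    rfl
  have hessM : Algebra.EssFiniteType U M := Pool.Agent.N999.SX.ess_any M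
  have hessCM : Algebra.EssFiniteType ℂ M := Algebra.EssFiniteType.comp ℂ U M
  obtain ⟨g, hg⟩ : ∃ g : ℕ, Algebra.trdeg E M = g := by
    have : Algebra.EssFiniteType E M := Algebra.EssFiniteType.of_comp ℂ E M
    exact Cardinal.lt_aleph0.1 (trdeg_lt_aleph0 E M)
  obtain ⟨f0, hf0⟩ : ∃ f0 : ℕ, Algebra.trdeg M L = f0 := by
    have : Algebra.EssFiniteType M L := Algebra.EssFiniteType.of_comp U M L
    exact Cardinal.lt_aleph0.1 (trdeg_lt_aleph0 M L)
  have h1 : g + f0 = f := by
    have h1 := trdeg_add_eq E M (A := L)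
    rw [hg, hf0, hfL] at h1
    exact_mod_cast h1
  have h2 : e0 + f0 = s := by
    have h1 := trdeg_add_eq U M (A := L)
    rw [he0, hf0, hL] at h1
    exact_mod_cast h1
  have hgen : IntermediateField.adjoin E (Set.range (algebraMap U M)) = ⊤ := by
    obtain ⟨N, hN⟩ : ∃ N : IntermediateField E M,
      N = IntermediateField.adjoin E (Set.range (algebraMap U M)) := ⟨_, rfl⟩
    obtain ⟨N', hN'⟩ : ∃ N' : IntermediateField U L, ∀ z : L, z ∈ N' ↔ ∃ z' ∈ N, (z' : L) = z :=
      ⟨(N.toSubfield.map M.val.toRingHom).toIntermediateField (fun z => ⟨algebraMap U M z, by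
        change algebraMap U M z ∈ N
        rw [hN]
        exact IntermediateField.subset_adjoin _ _ ⟨z, rfl⟩, rfl⟩), fun z => Iff.rfl⟩
    have h1 : M ≤ N' := by
      conv_lhs => rw [hM]
      rw [IntermediateField.adjoin_le_iff]
      rintro _ ⟨z, rfl⟩
      change _ ∈ N'
      rw [hN']
      exact ⟨algebraMap E M z, N.algebraMap_mem z, rfl⟩
    rw [← hN, eq_top_iff]
    intro z _
    obtain ⟨z', hz', h2⟩ := (hN' _).1 (h1 z.2)
    have h3 : z' = z := Subtype.ext h2
    rw [← h3]
    exact hz'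
  obtain ⟨hgd, h3⟩ := base_dim hE hU he0 hg hgen
  rw [← h1] at hqL
  have hq' := rest (k := E) (M := M) (L := L) hg hf0 hqL
  refine ⟨d - g, f0, by omega, by omega, h2, hf0, ?_⟩
  have h5 : d - (d - g) = g := by omega
  rw [h5]
  exact hq'

end

section

variable {L : Type} [Field L] [Algebra ℂ L] {U T : IntermediateField ℂ L}
  [Algebra.EssFiniteType ℂ U] [Algebra.EssFiniteType ℂ T] {K : Type} [Field K] [Algebra ℂ K]
  [Algebra K L] [IsScalarTower ℂ K L] [FiniteDimensional K L]

/-- **The inequality with the variation for one fibration of `W`.** -/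
theorem main_var {d n m0 κ : ℕ} (hm0 : 1 ≤ m0) (hsup : U ⊔ T = ⊤) (hU : Algebra.trdeg ℂ U = d)
    (hT : Algebra.trdeg ℂ T = n) (hL : Algebra.trdeg ℂ L = (d + n : ℕ))
    (hKU : IntermediateField.adjoin K (U : Set L) = ⊤) (X : Fin κ → Finset U)
    (hX : IntermediateField.adjoin ℂ (⋃ i, (X i : Set U)) = ⊤)
    {α : Fin (d + 1) → (Fin d → Derivation ℂ U U) → U}
    (hα : ∀ j, SecU K d m0 X {1} (α j)) {G0 : Fin d → Derivation ℂ U U} (hG0 : α 0 G0 ≠ 0)
    (hind : AlgebraicIndependent ℂ fun j : Fin d => α j.succ G0 / α 0 G0)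
    (E : IntermediateField ℂ K) (M : IntermediateField U L)
    (hM : M = IntermediateField.adjoin U (Set.range (algebraMap E L))) {e f e0 v q : ℕ}
    (he : Algebra.trdeg ℂ E = e) (hf : Algebra.trdeg E K = f) (he0 : Algebra.trdeg U M = e0)
    (hI : (∀ f0 q' : ℕ, e0 + f0 = n → Algebra.trdeg M L = f0 →
        KodGe M L f0 (fun _ => False) q' → KodGe U L n (fun _ => False) (q' + v)) ∨
      (e0 = 0 ∧ v = 0)) (hq : KodGe E K f (fun _ => False) q) :
    ∃ c, e = e0 + c ∧ c ≤ d ∧ KodGe ℂ K (d + n) (fun _ => False) (max q (d - c) + (c + v)) := by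
  classical
  have hessL : Algebra.EssFiniteType ℂ L := Pool.Agent.U192.PE.ess_prod U T hsup
  have hessK : Algebra.EssFiniteType ℂ K := Pool.Agent.TH466.QG.ess_below (K := L)
  have hessE : Algebra.EssFiniteType ℂ E := Pool.Agent.N999.SX.ess_any E
  have hessUL : Algebra.EssFiniteType U L := Algebra.EssFiniteType.of_comp ℂ U L
  have hUL : Algebra.trdeg U L = n := Pool.Agent.Y174.trdeg_LK hU hL
  have hU0 : CharZero U := charZero_of_injective_algebraMap (algebraMap ℂ U).injective
  obtain ⟨c, f0, hc, hcd, hef, hf0, hG⟩ := chain2 (E := E) (K := K) (U := U) (L := L) hU hUL he hf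
    M hM he0 hq
  have hY : PairKod ℂ T n (fun _ => 0) ((q - (d - c)) + v) := by
    rcases hI with h | ⟨h, h'⟩
    · have h1 := h f0 _ hef hf0 (kd_iff.2 hG)
      exact desc hsup hU hT hL (kd_iff.1 h1)
    · have hp : PairKod U M e0 (fun _ => 0) 0 := by
        subst h
        exact kd_point
      have h1 := iit_triv hsup hU hT hL M e0 f0 0 _ (Pool.Agent.N999.SX.ess_any M) he0 hf0
        (Or.inl h) hp hG
      rw [hef, Nat.zero_add] at h1
      rw [h', Nat.add_zero]
      exact desc hsup hU hT hL h1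
  refine ⟨c, hc, hcd, ?_⟩
  have h1 := Pool.Agent.U192.PE.kod_prod (K := K) U T hsup hU hT hL hKU X hX
    (δ := fun _ => 0) (δT := fun _ => 0) (fun _ => le_refl _) (fun _ _ => zero_le_one)
    (Pool.Agent.U393.UT.ge_zero U T) hm0 hα hG0 hind hY
  have h2 : d + ((q - (d - c)) + v) = max q (d - c) + (c + v) := by omega
  rw [h2] at h1
  exact kd_iff.2 h1

/-- easy addition -/
theorem easy_add [Algebra.EssFiniteType ℂ K] (E : IntermediateField ℂ K) {e f q : ℕ}
    (he : Algebra.trdeg ℂ E = e) (hf : Algebra.trdeg E K = f)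
    (h : KodGe ℂ K (e + f) (fun _ => False) (e + q)) : KodGe E K f (fun _ => False) q := by
  have h1 := rest (k := ℂ) (M := E) (L := K) he hf (kd_iff.1 h)
  rw [Nat.add_sub_cancel_left] at h1
  exact kd_iff.2 h1

end

end Pool.Agent.U393.IT
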